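import Pool.Agent.KS6_33.SP.YE

/-! # The shifted powers: the final form -/

set_option autoImplicit false

namespace Pool.Agent.KS6_33.SP

open Finset Filter Topology Polynomial Pool.Agent.R459.Eq Pool.Agent.H730R2.AA Pool.Agent.R318.PR
  Pool.Agent.KS6_33.EX
open Pool.Agent.H730R2.AA.Grid

/-- **Main theorem** for `H = F` and `H = D F ^ 2`. -/
theorem main_sp (F : ℤ[X]) (z : ℂ) (hz : z ≠ 0) (h0 : aeval z F = 0)
    (h1 : aeval z (derivative F) ≠ 0) (H : ℤ[X])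
    (hH : H = F ∨ ∃ D : ℤ, Squarefree D ∧ D % 4 = 1 ∧ D ≠ 1 ∧ H = C D * F ^ 2)
    (ε κ : ℝ) (hε : 0 < ε) (hκ : 0 < κ) (hκ1 : κ < 1) :
    ∃ (B : ℝ) (X₀ : ℕ), 0 < B ∧ ∀ (X N r : ℕ) (b c q : ℤ), X₀ ≤ X → r ≠ 0 → c ≠ 0 → q ≠ 0 →
      (r.divisors.card : ℝ) ≤ (X : ℝ) ^ (1 / 4 : ℝ) → (c.natAbs.primeFactors.card : ℝ) ≤ Real.sqrt X →
      (q.natAbs.primeFactors.card : ℝ) ≤ Real.sqrt X → ∀ E : Finset ℕ, E ⊆ range N →
      (∀ j ∈ E, ∃ x : ℕ, X ≤ x ∧ (x : ℝ) ^ (2 + κ) ≤ N ∧ ¬ Law ε (H.eval (c * (b + q * (j : ℤ)) ^ r)) x) →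
      (E.card : ℝ) ≤ B * (N / (X : ℝ) ^ κ) := by
  obtain ⟨M₀, hM₀, _, hW⟩ := weil_ex F z hz h0 h1 1 one_ne_zero
  have hall := all_sp F F.natDegree M₀ hW κ hκ hκ1
  rcases hH with rfl | ⟨D, hD, hD1, hD2, rfl⟩
  · obtain ⟨B, X₀, hB, _, J⟩ := g_law hM₀ hall ε hε
    refine ⟨B, X₀, hB, fun X N r b c q hX hr hc hq hτ hcX hqX E hE hbad => ?_⟩
    have := J X N (fun j : ℕ => H.eval (c * (b + q * (j : ℤ)) ^ r)) hX
      ⟨r, b, c, q, hr, hc, hq, hτ, hcX, hqX, rfl⟩ E hE hbad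
    rwa [mul_one_div] at this
  · obtain ⟨B, X₀, hB, _, J⟩ := g_law_sq hM₀ hall D hD hD1 hD2 ε hε
    refine ⟨B, X₀, hB, fun X N r b c q hX hr hc hq hτ hcX hqX E hE hbad => ?_⟩
    have := J X N (fun j : ℕ => F.eval (c * (b + q * (j : ℤ)) ^ r)) hX
      ⟨r, b, c, q, hr, hc, hq, hτ, hcX, hqX, rfl⟩ E hE (fun j hj => by
        obtain ⟨x, hx1, hx2, hx3⟩ := hbad j hj
        refine ⟨x, hx1, hx2, ?_⟩
        have hev : (C D * F ^ 2).eval (c * (b + q * (j : ℤ)) ^ r) =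
            D * (F.eval (c * (b + q * (j : ℤ)) ^ r)) ^ 2 := by simp
        rwa [hev] at hx3)
    rwa [mul_one_div] at this

/-- the exceptions are negligible among the primes -/
lemma primes_of_sp (κ : ℝ) (hκ : 0 < κ) (hκ1 : κ < 1) (B : ℝ) (X₀ : ℕ) (hB : 0 < B) (ω : ℝ) (b : ℕ → ℕ)
    (t : ℕ → ℝ) (ht : ∀ᶠ N : ℕ in atTop, t N ≤ Real.sqrt (Real.log N))
    (h : ∀ X N : ℕ, X₀ ≤ X → t N ≤ (X : ℝ) ^ (1 / 4 : ℝ) → ω ≤ Real.sqrt X → (Real.log N) ^ (2 / κ) ≤ X →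
      (∀ x : ℕ, (Real.log N) ^ (2 / κ) ≤ x → X ≤ x) → (b N : ℝ) ≤ B * (N / (X : ℝ) ^ κ)) :
    Tendsto (fun N : ℕ => (b N : ℝ) / Nat.primeCounting N) atTop (𝓝 0) := by
  have hbound : ∀ᶠ N : ℕ in atTop, (b N : ℝ) / Nat.primeCounting N ≤ 4 * B * (1 / Real.log N) := by
    have hlog : Tendsto (fun N : ℕ => (Real.log N) ^ (2 / κ)) atTop atTop :=
      (tendsto_rpow_atTop (by positivity)).comp log_atTop
    filter_upwards [ht, hlog.eventually_ge_atTop (X₀ : ℝ), hlog.eventually_ge_atTop (ω ^ 2),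
      log_atTop.eventually_ge_atTop (1 : ℝ), eventually_ge_atTop 4] with N htN hK1 hK2 hK3 hK4
    obtain ⟨X, hX⟩ : ∃ X : ℕ, X = ⌈(Real.log N) ^ (2 / κ)⌉₊ := ⟨_, rfl⟩
    have hXge : (Real.log N) ^ (2 / κ) ≤ X := by rw [hX]; exact Nat.le_ceil _
    have hXX : X₀ ≤ X := by
      have : (X₀ : ℝ) ≤ X := hK1.trans hXge
      exact_mod_cast this
    have hcX : ω ≤ Real.sqrt X := Real.le_sqrt_of_sq_le (hK2.trans hXge)
    have hL0 : 0 < Real.log N := by linarith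
    have hN0 : (0 : ℝ) < N := by exact_mod_cast (by omega : 0 < N)
    have htX : t N ≤ (X : ℝ) ^ (1 / 4 : ℝ) := by
      refine htN.trans ?_
      calc Real.sqrt (Real.log N) = (Real.log N) ^ (1 / 2 : ℝ) := Real.sqrt_eq_rpow _
        _ ≤ (Real.log N) ^ (2 / κ * (1 / 4)) := by
            apply Real.rpow_le_rpow_of_exponent_le hK3
            rw [div_mul_eq_mul_div, le_div_iff₀ hκ]
            linarith
        _ = ((Real.log N) ^ (2 / κ)) ^ (1 / 4 : ℝ) := by rw [Real.rpow_mul hL0.le]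
        _ ≤ _ := Real.rpow_le_rpow (by positivity) hXge (by norm_num)
    have h2 := h X N hXX htX hcX hXge (fun x hx => by rw [hX]; exact Nat.ceil_le.2 hx)
    obtain ⟨hpi, _, hpi2⟩ := pi_lower' N hK4
    have hXκ : (Real.log N) ^ 2 ≤ (X : ℝ) ^ κ := by
      calc (Real.log N) ^ 2 = (Real.log N) ^ ((2 : ℕ) : ℝ) := (Real.rpow_natCast _ _).symm
        _ = ((Real.log N) ^ (2 / κ)) ^ κ := by
            rw [← Real.rpow_mul hL0.le]
            congr 1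
            push_cast
            field_simp
        _ ≤ _ := Real.rpow_le_rpow (by positivity) hXge hκ.le
    have h3 : (b N : ℝ) ≤ B * (N / (Real.log N) ^ 2) := by
      refine h2.trans ?_
      apply mul_le_mul_of_nonneg_left _ hB.le
      exact div_le_div_of_nonneg_left hN0.le (by positivity) hXκ
    calc (b N : ℝ) / Nat.primeCounting N = (b N : ℝ) * (1 / Nat.primeCounting N) := by ring
      _ ≤ (B * (N / (Real.log N) ^ 2)) * (4 * Real.log N / N) :=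
          mul_le_mul h3 hpi2 (by positivity) (by positivity)
      _ = _ := by field_simp
  have hlim : Tendsto (fun N : ℕ => 4 * B * (1 / Real.log N)) atTop (𝓝 0) := by
    have h2 : Tendsto (fun N : ℕ => 1 / Real.log N) atTop (𝓝 0) := by
      simp only [one_div]
      exact tendsto_inv_atTop_zero.comp log_atTop
    have := h2.const_mul (4 * B)
    rwa [mul_zero] at this
  exact squeeze_zero' (Eventually.of_forall fun N => by positivity) hbound hlim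

end Pool.Agent.KS6_33.SP
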