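import Pool.Agent.KS6_33.EX.XH

/-! # From the events to the law, for any families -/

set_option autoImplicit false

namespace Pool.Agent.KS6_33.SP

open Finset Filter Topology Pool.Agent.R459.Eq Pool.Agent.H730R2.AA Pool.Agent.R318.PR Pool.Agent.KS6_33.EX
open Pool.Agent.H386R2.Artin (artinC)
open Pool.Agent.H730R2.AA.Grid

/-- the exceptions for a property `Q n x` among the members of the families `u` -/
def FewG (Adm : ℕ → ℕ → (ℕ → ℤ) → Prop) (R : ℕ → ℕ → Prop) (w : ℕ → ℝ) (Q : ℤ → ℕ → Prop) : Prop :=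
  ∃ (C : ℝ) (X₀ : ℕ), 0 < C ∧ 9 ≤ X₀ ∧ ∀ (X K : ℕ) (u : ℕ → ℤ), X₀ ≤ X → Adm X K u →
    ∀ E : Finset ℕ, E ⊆ range K → (∀ k ∈ E, ∃ x : ℕ, X ≤ x ∧ R x K ∧ ¬ Q (u k) x) →
      (E.card : ℝ) ≤ C * (K * w X)

/-- every event is equidistributed along the families -/
def AllH (M₀ : ℕ) (Adm : ℕ → ℕ → (ℕ → ℤ) → Prop) (R : ℕ → ℕ → Prop) (w : ℕ → ℝ) : Prop :=
  ∀ M : ℕ, M ≠ 0 → M₀ ∣ M → ∀ (f : ℕ → ℤ → ℝ) (μ : ℕ → ℝ), (∀ p : ℕ, p.Prime → ¬ p ∣ M → Ev p (f p) (μ p)) →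
    ∀ δ : ℝ, (∀ ε : ℝ, 0 < ε → ∃ X : ℕ, ∀ x : ℕ, X ≤ x →
      |∑ p ∈ GP M x, μ p - δ * Nat.primeCounting x| ≤ ε * Nat.primeCounting x) →
    ∀ N : ℤ → ℕ → ℕ, (∀ n, Monotone (N n)) → ∀ K₀ : ℝ, (∀ n x, |(N n x : ℝ) - ∑ p ∈ GP M x, f p n| ≤ K₀) →
    ∀ ε : ℝ, 0 < ε → FewG Adm R w (fun n x => |(N n x : ℝ) - δ * (Nat.primeCounting x : ℝ)| ≤
      ε * (Nat.primeCounting x : ℝ))

section

variable {M₀ : ℕ} {Adm : ℕ → ℕ → (ℕ → ℤ) → Prop} {R : ℕ → ℕ → Prop} {w : ℕ → ℝ}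

lemma fewG_mono (Q₁ Q : ℤ → ℕ → Prop) (h₁ : FewG Adm R w Q₁) (h : ∀ n x, Q₁ n x → Q n x) : FewG Adm R w Q := by
  obtain ⟨C, X₀, hC, hX₀, J⟩ := h₁
  refine ⟨C, X₀, hC, hX₀, fun X K u hX hu E hE hbad => J X K u hX hu E hE fun k hk => ?_⟩
  obtain ⟨x, hx1, hx2, hx3⟩ := hbad k hk
  exact ⟨x, hx1, hx2, fun h4 => hx3 (h _ _ h4)⟩

lemma fewG_or (Q₁ Q₂ Q : ℤ → ℕ → Prop) (h₁ : FewG Adm R w Q₁) (h₂ : FewG Adm R w Q₂)
    (h : ∀ n x, Q₁ n x → Q₂ n x → Q n x) : FewG Adm R w Q := by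
  classical
  obtain ⟨C₁, X₁, hC₁, hX₁, J₁⟩ := h₁
  obtain ⟨C₂, X₂, hC₂, hX₂, J₂⟩ := h₂
  refine ⟨C₁ + C₂, X₁ + X₂, by linarith, by omega, fun X K u hX hu E hE hbad => ?_⟩
  obtain ⟨E₁, hE₁⟩ : ∃ E₁ : Finset ℕ, E₁ = E.filter (fun k => ∃ x : ℕ, X ≤ x ∧ R x K ∧ ¬ Q₁ (u k) x) := ⟨_, rfl⟩
  obtain ⟨E₂, hE₂⟩ : ∃ E₂ : Finset ℕ, E₂ = E.filter (fun k => ∃ x : ℕ, X ≤ x ∧ R x K ∧ ¬ Q₂ (u k) x) := ⟨_, rfl⟩
  have hcover : E ⊆ E₁ ∪ E₂ := by
    intro k hk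
    obtain ⟨x, hx1, hx2, hx3⟩ := hbad k hk
    rw [mem_union, hE₁, hE₂, mem_filter, mem_filter]
    by_cases h1 : Q₁ (u k) x
    · right
      exact ⟨hk, x, hx1, hx2, fun h2 => hx3 (h _ _ h1 h2)⟩
    · left
      exact ⟨hk, x, hx1, hx2, h1⟩
  have h3 : (E.card : ℝ) ≤ (E₁.card : ℝ) + E₂.card := by
    exact_mod_cast (card_le_card hcover).trans (card_union_le _ _)
  have h4 := J₁ X K u (by omega) hu E₁ (by rw [hE₁]; exact (filter_subset _ _).trans hE)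
    (fun k hk => by rw [hE₁, mem_filter] at hk; exact hk.2)
  have h5 := J₂ X K u (by omega) hu E₂ (by rw [hE₂]; exact (filter_subset _ _).trans hE)
    (fun k hk => by rw [hE₂, mem_filter] at hk; exact hk.2)
  rw [add_mul]
  linarith

theorem g_pri (hM₀ : M₀ ≠ 0) (hall : AllH M₀ Adm R w) (ε : ℝ) (hε : 0 < ε) :
    FewG Adm R w (fun n x => |(cnt n x : ℝ) - artinC * (Nat.primeCounting x : ℝ)| ≤
      ε * (Nat.primeCounting x : ℝ)) :=
  hall M₀ hM₀ dvd_rfl pri rho (fun p hp _ => ev_pri p hp) artinC (avg_rho M₀ hM₀) (fun n x => cnt n x)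
    (fun _ _ _ hxy => cnt_mono _ hxy) (M₀.primeFactors.card : ℝ) (fun n x => cnt_pri M₀ hM₀ n x) ε hε

theorem g_sq (hM₀ : M₀ ≠ 0) (hall : AllH M₀ Adm R w) (D : ℤ) (hD : Squarefree D) (hD1 : D % 4 = 1) (hD2 : D ≠ 1)
    (ε : ℝ) (hε : 0 < ε) :
    FewG Adm R w (fun n x => |(cnt (D * n ^ 2) x : ℝ) - dens D * (Nat.primeCounting x : ℝ)| ≤
      ε * (Nat.primeCounting x : ℝ)) := by
  have hD0 : D ≠ 0 := by rintro rfl; norm_num at hD1
  have hDn : D.natAbs ≠ 0 := Int.natAbs_ne_zero.2 hD0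
  obtain ⟨M, hMdef⟩ : ∃ M : ℕ, M = 2 * D.natAbs * M₀ := ⟨_, rfl⟩
  have hM : M ≠ 0 := by rw [hMdef]; exact mul_ne_zero (mul_ne_zero two_ne_zero hDn) hM₀
  have h2M : 2 ∣ M := by rw [hMdef, mul_assoc]; exact dvd_mul_right _ _
  have hDM : D.natAbs ∣ M := by rw [hMdef]; exact (dvd_mul_left _ _).trans (dvd_mul_right _ _)
  have hM₀M : M₀ ∣ M := by rw [hMdef]; exact dvd_mul_left _ _
  exact hall M hM hM₀M (ind D) (cc D)
    (fun p hp hpM => ev_sq p hp (by rintro rfl; exact hpM h2M) D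
      (fun hd => hpM ((Int.natCast_dvd.1 hd).trans hDM))) (dens D)
    (avg_cc D hD hD1 hD2 M hM h2M hDM)
    (fun n x => cnt (D * n ^ 2) x) (fun _ _ _ hxy => cnt_mono _ hxy)
    (M.primeFactors.card : ℝ) (fun n x => by
      have := cnt_pri M hM (D * n ^ 2) x
      simp only [ind_eq]
      exact this) ε hε

theorem g_qu (hM₀ : M₀ ≠ 0) (hall : AllH M₀ Adm R w) (D : ℤ) (hD0 : D ≠ 0) :
    FewG Adm R w (fun n _ => ¬ IsSquare (D * n)) := by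
  classical
  have hDn : D.natAbs ≠ 0 := Int.natAbs_ne_zero.2 hD0
  obtain ⟨M, hMdef⟩ : ∃ M : ℕ, M = 2 * D.natAbs * M₀ := ⟨_, rfl⟩
  have hM : M ≠ 0 := by rw [hMdef]; exact mul_ne_zero (mul_ne_zero two_ne_zero hDn) hM₀
  have h2M : 2 ∣ M := by rw [hMdef, mul_assoc]; exact dvd_mul_right _ _
  have hDM : D.natAbs ∣ M := by rw [hMdef]; exact (dvd_mul_left _ _).trans (dvd_mul_right _ _)
  have hM₀M : M₀ ∣ M := by rw [hMdef]; exact dvd_mul_left _ _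
  obtain ⟨N, hN⟩ : ∃ N : ℤ → ℕ → ℕ, N = fun n x => ((GP M x).filter (fun p => IsSquare ((D * n : ℤ) : ZMod p))).card :=
    ⟨_, rfl⟩
  have hsum : ∀ n x, (N n x : ℝ) = ∑ p ∈ GP M x, qu D p n := by
    intro n x
    rw [hN]
    unfold qu
    dsimp only
    rw [card_filter]
    push_cast
    apply sum_congr rfl
    intro p _
    congr
  have h := hall M hM hM₀M (qu D) (fun _ => 1 / 2)
    (fun p hp hpM => ev_qu p hp (by rintro rfl; exact hpM h2M) D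
      (fun hd => hpM ((Int.natCast_dvd.1 hd).trans hDM))) (1 / 2) (avg_half M hM) N
    (fun n x y hxy => by
      rw [hN]
      dsimp only
      apply card_le_card
      apply filter_subset_filter
      intro p hp
      rw [mem_GP] at hp ⊢
      exact ⟨hp.1.trans hxy, hp.2⟩) 0 (fun n x => by rw [hsum, sub_self, abs_zero]) (1 / 4) (by norm_num)
  obtain ⟨C, X₀, hC, hX₀, J⟩ := h
  obtain ⟨X1, hX14, hX1⟩ := small_ev (M.primeFactors.card : ℝ) (1 / 8) (by norm_num)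
  refine ⟨C, X₀ + X1, hC, by omega, fun X K u hX hu E hE hbad => J X K u (by omega) hu E hE fun k hk => ?_⟩
  obtain ⟨x, hx1, hx2, hsq⟩ := hbad k hk
  rw [not_not] at hsq
  refine ⟨x, hx1, hx2, ?_⟩
  have hxX : X1 ≤ x := by omega
  have hpos := (pi_lower' x (by omega)).1
  have h2 : N (u k) x = (GP M x).card := by
    rw [hN]
    dsimp only
    rw [filter_true_of_mem]
    intro p _
    exact hsq.map (Int.castRingHom (ZMod p))
  have h3 := hX1 x hxX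
  have h8 : 0 ≤ Real.log x := Real.log_natCast_nonneg x
  have h4 := GP_card_ge M hM x
  beta_reduce
  rw [h2, not_le]
  refine lt_of_lt_of_le ?_ (le_abs_self _)
  linarith

theorem g_law (hM₀ : M₀ ≠ 0) (hall : AllH M₀ Adm R w) (ε : ℝ) (hε : 0 < ε) :
    FewG Adm R w (fun n x => Law ε n x) := by
  classical
  obtain ⟨C₁, X₁, hC₁, hX₁, J₁⟩ := g_pri hM₀ hall (ε / 2) (by positivity)
  obtain ⟨K₁, hK₁⟩ := exists_nat_ge (2 / ε : ℝ)
  have h2 : ∀ D : ℤ, ∃ (C : ℝ) (X₀ : ℕ), 0 < C ∧ 9 ≤ X₀ ∧ (D ≠ 0 → ∀ (X K : ℕ) (u : ℕ → ℤ), X₀ ≤ X → Adm X K u →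
      ∀ E : Finset ℕ, E ⊆ range K →
      (∀ k ∈ E, ∃ x : ℕ, X ≤ x ∧ R x K ∧ ¬ (¬ IsSquare (D * u k))) →
      (E.card : ℝ) ≤ C * (K * w X)) := by
    intro D
    by_cases hD : D = 0
    · exact ⟨1, 9, one_pos, le_rfl, fun h => absurd hD h⟩
    · obtain ⟨C, X₀, hC, hX₀, hJ⟩ := g_qu hM₀ hall D hD
      exact ⟨C, X₀, hC, hX₀, fun _ => hJ⟩
  choose C₂ X₂ hC₂ hX₂ J₂ using h2
  obtain ⟨S, hS⟩ : ∃ S : Finset ℤ, S = (Icc (-(K₁ : ℤ)) K₁).filter (fun D => D ≠ 0) := ⟨_, rfl⟩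
  have hCS : 0 ≤ ∑ D ∈ S, C₂ D := sum_nonneg fun D _ => (hC₂ D).le
  refine ⟨C₁ + ∑ D ∈ S, C₂ D, X₁ + ∑ D ∈ S, X₂ D, by linarith, by omega, ?_⟩
  intro X K u hX hu E hEK hbad
  obtain ⟨EE, hEE⟩ : ∃ EE : ℤ → Finset ℕ, EE = fun D => E.filter (fun k => IsSquare (D * u k)) :=
    ⟨_, rfl⟩
  obtain ⟨E₁, hE₁⟩ : ∃ E₁ : Finset ℕ, E₁ = E.filter (fun k => ∃ x : ℕ, X ≤ x ∧ R x K ∧
    ε / 2 * (Nat.primeCounting x : ℝ) <
      |(cnt (u k) x : ℝ) - artinC * (Nat.primeCounting x : ℝ)|) := ⟨_, rfl⟩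
  have hcover : E ⊆ E₁ ∪ S.biUnion EE := by
    intro k hk
    obtain ⟨x, hx1, hx2, hx3⟩ := hbad k hk
    unfold Law at hx3
    push Not at hx3
    obtain ⟨D, s, hDsf, hDs, hx3⟩ := hx3
    rw [mem_union]
    by_cases hsm : D.natAbs ≤ K₁
    · right
      rw [mem_biUnion]
      refine ⟨D, ?_, ?_⟩
      · rw [hS, mem_filter, mem_Icc]
        exact ⟨by omega, hDsf.ne_zero⟩
      · rw [hEE, mem_filter]
        refine ⟨hk, D * s, ?_⟩
        rw [hDs]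
        ring
    · left
      rw [hE₁, mem_filter]
      refine ⟨hk, x, hx1, hx2, ?_⟩
      have hclose : |(if D % 4 = 1 then dens D else artinC) - artinC| ≤ ε / 2 := by
        split_ifs with h4
        · refine (dens_close D hDsf h4).trans ?_
          have h5 : (2 / ε : ℝ) ≤ (D.natAbs : ℝ) := by
            refine hK₁.trans ?_
            exact_mod_cast (by omega : K₁ ≤ D.natAbs)
          have h6 : (0 : ℝ) < 2 / ε := by positivity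
          calc 1 / (D.natAbs : ℝ) ≤ 1 / (2 / ε) := one_div_le_one_div_of_le h6 h5
            _ = ε / 2 := by field_simp
        · rw [sub_self, abs_zero]
          positivity
      have h7 := abs_sub_le (cnt (u k) x : ℝ) (artinC * (Nat.primeCounting x : ℝ))
        ((if D % 4 = 1 then dens D else artinC) * (Nat.primeCounting x : ℝ))
      have h8 : |artinC * (Nat.primeCounting x : ℝ) -
          (if D % 4 = 1 then dens D else artinC) * (Nat.primeCounting x : ℝ)| ≤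
          ε / 2 * (Nat.primeCounting x : ℝ) := by
        rw [abs_sub_comm, ← sub_mul, abs_mul, Nat.abs_cast]
        exact mul_le_mul_of_nonneg_right hclose (Nat.cast_nonneg _)
      linarith
  have h3 : (E.card : ℝ) ≤ (E₁.card : ℝ) + ∑ D ∈ S, ((EE D).card : ℝ) := by
    have := (card_le_card hcover).trans ((card_union_le _ _).trans (add_le_add_right card_biUnion_le _))
    exact_mod_cast this
  have h4 : (E₁.card : ℝ) ≤ C₁ * (K * w X) := by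
    apply J₁ X K u (by omega) hu E₁
    · rw [hE₁]
      exact (filter_subset _ _).trans hEK
    · intro k hk
      rw [hE₁, mem_filter] at hk
      obtain ⟨_, x, hx1, hx2, hx3⟩ := hk
      exact ⟨x, hx1, hx2, not_le.2 hx3⟩
  have h5 : ∑ D ∈ S, ((EE D).card : ℝ) ≤ ∑ D ∈ S, C₂ D * (K * w X) := by
    apply sum_le_sum
    intro D hD
    have hD0 : D ≠ 0 := by
      rw [hS, mem_filter] at hD
      exact hD.2
    have hXD : X₂ D ≤ X := by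
      have := single_le_sum (f := X₂) (fun _ _ => Nat.zero_le _) hD
      omega
    apply J₂ D hD0 X K u hXD hu (EE D)
    · rw [hEE]
      exact (filter_subset _ _).trans hEK
    · intro k hk
      rw [hEE, mem_filter] at hk
      obtain ⟨x, hx1, hx2, _⟩ := hbad k hk.1
      exact ⟨x, hx1, hx2, not_not.2 hk.2⟩
  rw [← sum_mul] at h5
  rw [add_mul]
  linarith

/-- the law for `D n ^ 2` -/
theorem g_law_sq (hM₀ : M₀ ≠ 0) (hall : AllH M₀ Adm R w) (D : ℤ) (hD : Squarefree D) (hD1 : D % 4 = 1) (hD2 : D ≠ 1)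
    (ε : ℝ) (hε : 0 < ε) : FewG Adm R w (fun n x => Law ε (D * n ^ 2) x) := by
  refine fewG_or _ _ _ (g_sq hM₀ hall D hD hD1 hD2 ε hε) (g_qu hM₀ hall 1 one_ne_zero) ?_
  intro n x h2 h3 D' s hD' hs
  have hne : n ≠ 0 := by
    intro h4
    apply h3
    rw [h4, mul_zero]
    exact ⟨0, rfl⟩
  have hDD := sf_unique D D' n s hD hD' hne hs
  rw [← hDD, if_pos hD1]
  exact h2

end

end Pool.Agent.KS6_33.SP
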