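import Pool.Agent.KS6_33.EX.XB

/-! # Sums over the `r`-th powers -/

set_option autoImplicit false

namespace Pool.Agent.KS6_33.SP

open Finset Polynomial Pool.Agent.R459.Eq Pool.Agent.H730R2.AA Pool.Agent.R318.PR Pool.Agent.KS6_33.EX

section

variable (p : ℕ) [Fact p.Prime]

lemma sum_char_all (χ : DirichletCharacter ℂ p) :
    ∑ y : ZMod p, χ y = if χ = 1 then ((p - 1 : ℕ) : ℂ) else 0 := by
  classical
  split_ifs with h
  · rw [h, MulChar.sum_one_eq_card_units, ZMod.card_units]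
  · exact MulChar.sum_eq_zero_of_ne_one h

lemma card_pow_one (r : ℕ) :
    ((univ : Finset (ZMod p)).filter (fun y => y ≠ 0 ∧ y ^ r = 1)).card ≤ Nat.gcd r (p - 1) := by
  classical
  have hpp := Fact.out (p := p.Prime)
  have hp2 := hpp.two_le
  have hg : 0 < Nat.gcd r (p - 1) := Nat.gcd_pos_of_pos_right _ (by omega)
  have h1 : ((univ : Finset (ZMod p)).filter (fun y => y ≠ 0 ∧ y ^ r = 1)) ⊆
      (nthRoots (Nat.gcd r (p - 1)) (1 : ZMod p)).toFinset := by
    intro y hy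
    rw [mem_filter] at hy
    rw [Multiset.mem_toFinset, mem_nthRoots hg]
    exact pow_gcd_eq_one.2 ⟨hy.2.2, ZMod.pow_card_sub_one_eq_one hy.2.1⟩
  exact (card_le_card h1).trans ((Multiset.toFinset_card_le _).trans (card_nthRoots _ _))

lemma card_chars (r : ℕ) (hr : r ≠ 0) :
    ((univ : Finset (DirichletCharacter ℂ p)).filter (fun χ => χ ^ r = 1)).card ≤ Nat.gcd r (p - 1) := by
  classical
  have hpp := Fact.out (p := p.Prime)
  have hp2 := hpp.two_le
  have hp0 : ((p - 1 : ℕ) : ℂ) ≠ 0 := by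
    exact_mod_cast (by omega : p - 1 ≠ 0)
  have h1 : ∑ χ : DirichletCharacter ℂ p, ∑ y : ZMod p, (χ ^ r) y =
      (((univ : Finset (DirichletCharacter ℂ p)).filter (fun χ => χ ^ r = 1)).card : ℂ) *
        ((p - 1 : ℕ) : ℂ) := by
    simp only [sum_char_all]
    rw [← sum_filter, sum_const, nsmul_eq_mul]
  have h2 : ∑ χ : DirichletCharacter ℂ p, ∑ y : ZMod p, (χ ^ r) y =
      (((univ : Finset (ZMod p)).filter (fun y => y ≠ 0 ∧ y ^ r = 1)).card : ℂ) * ((p - 1 : ℕ) : ℂ) := by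
    rw [sum_comm]
    have h3 : ∀ y : ZMod p, ∑ χ : DirichletCharacter ℂ p, (χ ^ r) y =
        if (y ≠ 0 ∧ y ^ r = 1) then ((p - 1 : ℕ) : ℂ) else 0 := by
      intro y
      have h4 : ∀ χ : DirichletCharacter ℂ p, (χ ^ r) y = χ (y ^ r) := by
        intro χ
        rw [MulChar.pow_apply' _ hr, map_pow]
      simp only [h4]
      rw [DirichletCharacter.sum_characters_eq, Nat.totient_prime hpp]
      by_cases hy : y = 0
      · rw [hy, zero_pow hr]
        simp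
      · simp [hy]
    simp only [h3]
    rw [← sum_filter, sum_const, nsmul_eq_mul]
  have h3 := h1.symm.trans h2
  have h4 := mul_right_cancel₀ hp0 h3
  have h5 : ((univ : Finset (DirichletCharacter ℂ p)).filter (fun χ => χ ^ r = 1)).card =
      ((univ : Finset (ZMod p)).filter (fun y => y ≠ 0 ∧ y ^ r = 1)).card := by
    exact_mod_cast h4
  rw [h5]
  exact card_pow_one p r

/-- the sum of a function over the `r`-th powers -/
lemma pow_sum (r : ℕ) (hr : r ≠ 0) (h : ZMod p → ℂ) (B : ℝ) (hB0 : 0 ≤ B) (hB : Bd p h B) :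
    ‖∑ y : ZMod p, if y = 0 then 0 else h (y ^ r)‖ ≤ (Nat.gcd r (p - 1) : ℝ) * B := by
  classical
  have hpp := Fact.out (p := p.Prime)
  have hp2 := hpp.two_le
  have hφ : Nat.totient p = p - 1 := Nat.totient_prime hpp
  have hp0 : (0 : ℝ) < ((p - 1 : ℕ) : ℝ) := by exact_mod_cast (by omega : 0 < p - 1)
  have hp0' : ((p - 1 : ℕ) : ℂ) ≠ 0 := by exact_mod_cast hp0.ne'
  have h1 : ((p - 1 : ℕ) : ℂ) * ∑ y : ZMod p, (if y = 0 then 0 else h (y ^ r)) =
      ∑ χ : DirichletCharacter ℂ p, (∑ z : ZMod p, h z * χ z) *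
        (if χ ^ r = 1 then ((p - 1 : ℕ) : ℂ) else 0) := by
    have h2 : ∀ y : ZMod p, ((p - 1 : ℕ) : ℂ) * (if y = 0 then 0 else h (y ^ r)) =
        ∑ χ : DirichletCharacter ℂ p, (∑ z : ZMod p, h z * χ z) * (χ ^ r) y⁻¹ := by
      intro y
      split_ifs with hy
      · rw [hy, inv_zero, mul_zero]
        symm
        apply sum_eq_zero
        intro χ _
        rw [MulChar.map_zero, mul_zero]
      · have hu : IsUnit (y ^ r) := isUnit_iff_ne_zero.2 (pow_ne_zero _ hy)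
        have h3 := inv_formula p h (y ^ r) hu
        rw [hφ, eq_div_iff hp0'] at h3
        rw [mul_comm, h3]
        apply sum_congr rfl
        intro χ _
        rw [MulChar.pow_apply' _ hr, ← map_pow, inv_pow]
    rw [mul_sum, sum_congr rfl (fun y _ => h2 y), sum_comm]
    apply sum_congr rfl
    intro χ _
    rw [← mul_sum]
    congr 1
    rw [← sum_char_all]
    exact Fintype.sum_equiv (Equiv.inv (ZMod p)) _ _ (fun y => rfl)
  have h2 : ‖((p - 1 : ℕ) : ℂ) * ∑ y : ZMod p, (if y = 0 then 0 else h (y ^ r))‖ ≤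
      ((p - 1 : ℕ) : ℝ) * ((Nat.gcd r (p - 1) : ℝ) * B) := by
    rw [h1]
    refine (norm_sum_le _ _).trans ?_
    have h3 : ∀ χ : DirichletCharacter ℂ p, ‖(∑ z : ZMod p, h z * χ z) *
        (if χ ^ r = 1 then ((p - 1 : ℕ) : ℂ) else 0)‖ ≤ if χ ^ r = 1 then B * ((p - 1 : ℕ) : ℝ) else 0 := by
      intro χ
      split_ifs
      · rw [norm_mul, Complex.norm_natCast]
        exact mul_le_mul_of_nonneg_right (hB χ) hp0.le
      · rw [mul_zero, norm_zero]
    refine (sum_le_sum fun χ _ => h3 χ).trans ?_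
    rw [← sum_filter, sum_const, nsmul_eq_mul]
    have h4 : (((univ : Finset (DirichletCharacter ℂ p)).filter (fun χ => χ ^ r = 1)).card : ℝ) ≤
        (Nat.gcd r (p - 1) : ℝ) := by exact_mod_cast card_chars p r hr
    calc _ ≤ (Nat.gcd r (p - 1) : ℝ) * (B * ((p - 1 : ℕ) : ℝ)) :=
          mul_le_mul_of_nonneg_right h4 (by positivity)
      _ = _ := by ring
  rw [norm_mul, Complex.norm_natCast] at h2
  exact le_of_mul_le_mul_left h2 hp0

end

/-- a sum over a complete system of residues -/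
lemma sum_residues (p : ℕ) [Fact p.Prime] (b q : ℤ) (hq : ¬ (p : ℤ) ∣ q) (u : ZMod p → ℂ) :
    ∑ j ∈ range p, u (((b + q * (j : ℤ) : ℤ)) : ZMod p) = ∑ y : ZMod p, u y := by
  have hq0 : (q : ZMod p) ≠ 0 := by
    rw [Ne, ZMod.intCast_zmod_eq_zero_iff_dvd]
    exact hq
  have hp0 : 0 < p := (Fact.out (p := p.Prime)).pos
  apply sum_nbij' (fun j : ℕ => (((b + q * (j : ℤ) : ℤ)) : ZMod p))
    (fun y : ZMod p => ((y - (b : ZMod p)) * (q : ZMod p)⁻¹).val)
  · intro j _; exact mem_univ _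
  · intro y _; exact mem_range.2 (ZMod.val_lt _)
  · intro j hj
    rw [mem_range] at hj
    push_cast
    rw [add_sub_cancel_left, mul_comm (q : ZMod p), mul_assoc, mul_inv_cancel₀ hq0, mul_one]
    exact ZMod.val_cast_of_lt hj
  · intro y _
    push_cast
    rw [ZMod.natCast_val, ZMod.cast_id, mul_comm (q : ZMod p), mul_assoc, inv_mul_cancel₀ hq0, mul_one,
      add_sub_cancel]
  · intro j _; rfl

/-- the family modulo `p` -/
noncomputable def fam (F : ℤ[X]) (c b q : ℤ) (r : ℕ) (f : ℤ → ℝ) (j : ℕ) : ℝ :=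
  f (F.eval (c * (b + q * (j : ℤ)) ^ r))

lemma fam_hh (F : ℤ[X]) (c b q : ℤ) (r : ℕ) (p : ℕ) [NeZero p] (f : ℤ → ℝ) (hper : Per p f) (μ : ℝ) (j : ℕ) :
    ((fam F c b q r f j - μ : ℝ) : ℂ) = hh F c p f μ ((((b + q * (j : ℤ) : ℤ)) : ZMod p) ^ r) := by
  unfold hh fam
  congr 2
  apply hper
  refine dvd_trans ?_ (sub_dvd_eval_sub _ _ F)
  rw [← mul_sub]
  apply Dvd.dvd.mul_left
  rw [← ZMod.intCast_eq_intCast_iff_dvd_sub]
  push_cast
  rw [ZMod.natCast_val, ZMod.cast_id]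

/-- the mean value of the event over the `r`-th powers -/
theorem mean_pow (p : ℕ) [Fact p.Prime] (F : ℤ[X]) (d r : ℕ) (hr : r ≠ 0)
    (hW : ∀ χ ψ : DirichletCharacter ℂ p, χ ≠ 1 → ∀ c : ZMod p, c ≠ 0 →
        ‖∑ x : ZMod p, χ (ev F p (c * x)) * ψ x‖ ≤ (d + 1 : ℕ) * Real.sqrt p)
    (hz : (Finset.univ.filter (fun x : ZMod p => ev F p x = 0)).card ≤ d)
    (f : ℤ → ℝ) (μ : ℝ) (hE : Ev p f μ) (c b q : ℤ) (hc : ¬ (p : ℤ) ∣ c) (hq : ¬ (p : ℤ) ∣ q) :
    |(∑ j ∈ range p, fam F c b q r f j) / p - μ| ≤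
      5 * (d + 1) * ((Nat.gcd r (p - 1) : ℝ) * (((p - 1).divisors.card : ℝ) / Real.sqrt p)) := by
  classical
  have hpp := Fact.out (p := p.Prime)
  have hp2 := hpp.two_le
  have hp0 : (0 : ℝ) < p := by exact_mod_cast hpp.pos
  have hs0 : 0 < Real.sqrt p := Real.sqrt_pos.2 hp0
  have hs1 : 1 ≤ Real.sqrt p := by rw [Real.one_le_sqrt]; exact_mod_cast hpp.one_le
  have hss : Real.sqrt p * Real.sqrt p = p := Real.mul_self_sqrt hp0.le
  have hτ := tau_one p hpp
  have hg1 : (1 : ℝ) ≤ (Nat.gcd r (p - 1) : ℝ) := by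
    exact_mod_cast Nat.gcd_pos_of_pos_right r (by omega : 0 < p - 1)
  have hbd := bd_ev p F d hW hz f μ hE c hc
  obtain ⟨B, hB⟩ : ∃ B : ℝ, B = 3 * (d + 1) * ((p - 1).divisors.card : ℝ) * Real.sqrt p := ⟨_, rfl⟩
  rw [← hB] at hbd
  have hB0 : 0 ≤ B := by rw [hB]; positivity
  have h1 : ((∑ j ∈ range p, (fam F c b q r f j - μ) : ℝ) : ℂ) =
      ∑ y : ZMod p, hh F c p f μ (y ^ r) := by
    push_cast
    rw [← sum_residues p b q hq (fun y => hh F c p f μ (y ^ r))]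
    apply sum_congr rfl
    intro j _
    rw [← fam_hh F c b q r p f hE.per μ j]
    push_cast
    rfl
  have h2 : ∑ y : ZMod p, hh F c p f μ (y ^ r) = hh F c p f μ (0 ^ r) +
      ∑ y : ZMod p, (if y = 0 then 0 else hh F c p f μ (y ^ r)) := by
    have h3 : ∀ y : ZMod p, hh F c p f μ (y ^ r) = (if y = 0 then hh F c p f μ (0 ^ r) else 0) +
        (if y = 0 then 0 else hh F c p f μ (y ^ r)) := by
      intro y
      split_ifs with h
      · rw [h, add_zero]
      · rw [zero_add]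
    rw [sum_congr rfl (fun y _ => h3 y), sum_add_distrib, sum_ite_eq' univ (0 : ZMod p), if_pos (mem_univ _)]
  have h3 : ‖hh F c p f μ (0 ^ r)‖ ≤ 2 := by
    unfold hh
    rw [Complex.norm_real, Real.norm_eq_abs, abs_le]
    have h4 := hE.mem (F.eval (c * ((((0 : ZMod p) ^ r).val : ℕ) : ℤ)))
    have h5 := hE.mu0
    have h6 := hE.mu2
    constructor <;> linarith [h4.1, h4.2]
  have h4 := pow_sum p r hr (hh F c p f μ) B hB0 hbd
  have h5 : |∑ j ∈ range p, (fam F c b q r f j - μ)| ≤ 2 + (Nat.gcd r (p - 1) : ℝ) * B := by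
    rw [← Real.norm_eq_abs, ← Complex.norm_real, h1, h2]
    exact (norm_add_le _ _).trans (add_le_add h3 h4)
  have h6 : (∑ j ∈ range p, fam F c b q r f j) / p - μ =
      (∑ j ∈ range p, (fam F c b q r f j - μ)) / p := by
    rw [sum_sub_distrib, sum_const, card_range, nsmul_eq_mul]
    field_simp
  rw [h6, abs_div, abs_of_pos hp0]
  have h7 : 5 * (d + 1) * ((Nat.gcd r (p - 1) : ℝ) * (((p - 1).divisors.card : ℝ) / Real.sqrt p)) =
      (5 * (d + 1) * (Nat.gcd r (p - 1) : ℝ) * ((p - 1).divisors.card : ℝ) * Real.sqrt p) / p := by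
    rw [eq_div_iff hp0.ne']
    have h8 : ((p - 1).divisors.card : ℝ) / Real.sqrt p * p = ((p - 1).divisors.card : ℝ) * Real.sqrt p := by
      rw [div_mul_eq_mul_div, div_eq_iff hs0.ne', mul_assoc, hss]
    calc 5 * ((d : ℝ) + 1) * ((Nat.gcd r (p - 1) : ℝ) * (((p - 1).divisors.card : ℝ) / Real.sqrt p)) * p =
        5 * (d + 1) * (Nat.gcd r (p - 1) : ℝ) * (((p - 1).divisors.card : ℝ) / Real.sqrt p * p) := by ring
      _ = _ := by rw [h8]; ring
  rw [h7]
  apply div_le_div_of_nonneg_right _ hp0.le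
  refine h5.trans ?_
  rw [hB]
  have h8 : (1 : ℝ) ≤ (Nat.gcd r (p - 1) : ℝ) * ((p - 1).divisors.card : ℝ) * Real.sqrt p :=
    one_le_mul_of_one_le_of_one_le (one_le_mul_of_one_le_of_one_le hg1 hτ) hs1
  have hd0 : (0 : ℝ) ≤ d := Nat.cast_nonneg _
  have h9 : 2 * 1 * 1 ≤ 2 * ((d : ℝ) + 1) * ((Nat.gcd r (p - 1) : ℝ) * ((p - 1).divisors.card : ℝ) * Real.sqrt p) :=
    mul_le_mul (by linarith) h8 (by norm_num) (by positivity)
  calc 2 + (Nat.gcd r (p - 1) : ℝ) * (3 * (d + 1) * ((p - 1).divisors.card : ℝ) * Real.sqrt p) ≤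
      2 * ((d : ℝ) + 1) * ((Nat.gcd r (p - 1) : ℝ) * ((p - 1).divisors.card : ℝ) * Real.sqrt p) +
      (Nat.gcd r (p - 1) : ℝ) * (3 * (d + 1) * ((p - 1).divisors.card : ℝ) * Real.sqrt p) := by linarith
    _ = _ := by ring

end Pool.Agent.KS6_33.SP
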