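import Pool.Agent.KS6_33.SP.YA

/-! # The second moment over an interval -/

set_option autoImplicit false

namespace Pool.Agent.KS6_33.SP

open Finset Polynomial Pool.Agent.R459.Eq Pool.Agent.H730R2.AA Pool.Agent.R318.PR Pool.Agent.KS6_33.EX

/-- partial sums of a periodic function with sum zero over a period -/
lemma periodic_sum (u : ℕ → ℝ) (L : ℕ) (hL : 0 < L) (hper : ∀ j, u (j + L) = u j) (h0 : ∑ j ∈ range L, u j = 0)
    (h1 : ∀ j, |u j| ≤ 1) (N : ℕ) : |∑ j ∈ range N, u j| ≤ L := by
  have hk : ∀ k s : ℕ, ∑ j ∈ range (L * k + s), u j = ∑ j ∈ range s, u j := by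
    intro k
    induction k with
    | zero => intro s; rw [mul_zero, zero_add]
    | succ k ih =>
      intro s
      have e1 : L * (k + 1) + s = L + (L * k + s) := by ring
      rw [e1, sum_range_add, h0, zero_add]
      rw [← ih s]
      apply sum_congr rfl
      intro j _
      rw [add_comm, hper]
  rw [← Nat.div_add_mod N L, hk]
  refine (abs_sum_le_sum_abs _ _).trans ((sum_le_card_nsmul _ _ 1 fun j _ => h1 j).trans ?_)
  rw [card_range, nsmul_eq_mul, mul_one]
  exact_mod_cast (Nat.mod_lt N hL).le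

/-- the sum over a period of a product of two functions with coprime periods -/
lemma crt_sum (p q : ℕ) (hp : 0 < p) (hq : 0 < q) (hpq : Nat.Coprime p q) (u v : ℕ → ℝ)
    (hu : ∀ j, u (j + p) = u j) (hv : ∀ j, v (j + q) = v j) :
    ∑ j ∈ range (p * q), u j * v j = (∑ j ∈ range p, u j) * (∑ j ∈ range q, v j) := by
  have hu' : ∀ j, u (j % p) = u j := by
    intro j
    have : ∀ k s : ℕ, u (s + p * k) = u s := by
      intro k
      induction k with
      | zero => intro s; rw [mul_zero, add_zero]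
      | succ k ih => intro s; rw [show s + p * (k + 1) = (s + p * k) + p by ring, hu, ih]
    conv_rhs => rw [← Nat.mod_add_div j p]
    rw [this]
  have hv' : ∀ j, v (j % q) = v j := by
    intro j
    have : ∀ k s : ℕ, v (s + q * k) = v s := by
      intro k
      induction k with
      | zero => intro s; rw [mul_zero, add_zero]
      | succ k ih => intro s; rw [show s + q * (k + 1) = (s + q * k) + q by ring, hv, ih]
    conv_rhs => rw [← Nat.mod_add_div j q]
    rw [this]
  rw [sum_mul_sum, ← sum_product']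
  apply sum_nbij' (fun j => (j % p, j % q)) (fun c => (Nat.chineseRemainder hpq c.1 c.2 : ℕ))
  · intro j _
    rw [mem_product, mem_range, mem_range]
    exact ⟨Nat.mod_lt _ hp, Nat.mod_lt _ hq⟩
  · intro c _
    rw [mem_range]
    exact Nat.chineseRemainder_lt_mul hpq _ _ hp.ne' hq.ne'
  · intro j hj
    rw [mem_range] at hj
    have h1 := (Nat.chineseRemainder hpq (j % p) (j % q)).2
    have h2 : (Nat.chineseRemainder hpq (j % p) (j % q) : ℕ) ≡ j [MOD p * q] := by
      apply (Nat.modEq_and_modEq_iff_modEq_mul hpq).1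
      exact ⟨h1.1.trans (Nat.mod_modEq _ _), h1.2.trans (Nat.mod_modEq _ _)⟩
    exact Nat.ModEq.eq_of_lt_of_lt h2 (Nat.chineseRemainder_lt_mul hpq _ _ hp.ne' hq.ne') hj
  · rintro ⟨a, b⟩ hc
    rw [mem_product, mem_range, mem_range] at hc
    have h1 := (Nat.chineseRemainder hpq a b).2
    simp only [Prod.mk.injEq]
    constructor
    · have h2 : (Nat.chineseRemainder hpq a b : ℕ) % p = a % p := h1.1
      exact h2.trans (Nat.mod_eq_of_lt hc.1)
    · have h2 : (Nat.chineseRemainder hpq a b : ℕ) % q = b % q := h1.2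
      exact h2.trans (Nat.mod_eq_of_lt hc.2)
  · intro j _
    simp only
    rw [hu', hv']

/-- the second moment -/
theorem variance_int (S : Finset ℕ) (x : ℕ) (hS : ∀ p ∈ S, p.Prime ∧ p ≤ x) (g : ℕ → ℕ → ℝ)
    (hg : ∀ p ∈ S, ∀ j, 0 ≤ g p j ∧ g p j ≤ 1) (hper : ∀ p ∈ S, ∀ j, g p (j + p) = g p j) (N : ℕ) :
    ∑ j ∈ range N, (∑ p ∈ S, (g p j - (∑ i ∈ range p, g p i) / p)) ^ 2 ≤
      (N : ℝ) * S.card + (S.card : ℝ) ^ 2 * x ^ 2 := by
  classical
  obtain ⟨m, hm⟩ : ∃ m : ℕ → ℝ, m = fun p => (∑ i ∈ range p, g p i) / p := ⟨_, rfl⟩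
  obtain ⟨u, hu⟩ : ∃ u : ℕ → ℕ → ℝ, u = fun p j => g p j - m p := ⟨_, rfl⟩
  have hm01 : ∀ p ∈ S, 0 ≤ m p ∧ m p ≤ 1 := by
    intro p hp
    have hp0 : (0 : ℝ) < p := by exact_mod_cast (hS p hp).1.pos
    rw [hm]
    constructor
    · exact div_nonneg (sum_nonneg fun i _ => (hg p hp i).1) hp0.le
    · rw [div_le_one hp0]
      refine (sum_le_card_nsmul _ _ 1 fun i _ => (hg p hp i).2).trans ?_
      rw [card_range, nsmul_eq_mul, mul_one]
  have hu1 : ∀ p ∈ S, ∀ j, |u p j| ≤ 1 := by
    intro p hp j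
    have h1 := hm01 p hp
    have h2 := hg p hp j
    rw [hu, abs_le]
    constructor <;> dsimp only <;> linarith [h1.1, h1.2, h2.1, h2.2]
  have huper : ∀ p ∈ S, ∀ j, u p (j + p) = u p j := by
    intro p hp j
    rw [hu]
    dsimp only
    rw [hper p hp]
  have hu0 : ∀ p ∈ S, ∑ j ∈ range p, u p j = 0 := by
    intro p hp
    have hp0 : (p : ℝ) ≠ 0 := by exact_mod_cast (hS p hp).1.ne_zero
    rw [hu, hm]
    dsimp only
    rw [sum_sub_distrib, sum_const, card_range, nsmul_eq_mul, mul_div_cancel₀ _ hp0, sub_self]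
  have hpair : ∀ p ∈ S, ∀ q ∈ S, |∑ j ∈ range N, u p j * u q j| ≤ (if p = q then (N : ℝ) else 0) + (x : ℝ) ^ 2 := by
    intro p hp q hq
    obtain ⟨hpp, hpx⟩ := hS p hp
    obtain ⟨hqq, hqx⟩ := hS q hq
    have h1 : ∀ j, |u p j * u q j| ≤ 1 := by
      intro j
      rw [abs_mul]
      exact mul_le_one₀ (hu1 p hp j) (abs_nonneg _) (hu1 q hq j)
    split_ifs with hpq
    · refine (abs_sum_le_sum_abs _ _).trans ((sum_le_card_nsmul _ _ 1 fun j _ => h1 j).trans ?_)
      rw [card_range, nsmul_eq_mul, mul_one]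
      have : (0 : ℝ) ≤ (x : ℝ) ^ 2 := by positivity
      linarith
    · have hc : Nat.Coprime p q := (Nat.coprime_primes hpp hqq).2 hpq
      have h2 := crt_sum p q hpp.pos hqq.pos hc (u p) (u q) (huper p hp) (huper q hq)
      rw [hu0 p hp, zero_mul] at h2
      have hper' : ∀ j, u p (j + p * q) * u q (j + p * q) = u p j * u q j := by
        intro j
        have h3 : ∀ k s : ℕ, u p (s + p * k) = u p s := by
          intro k
          induction k with
          | zero => intro s; rw [mul_zero, add_zero]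
          | succ k ih => intro s; rw [show s + p * (k + 1) = (s + p * k) + p by ring, huper p hp, ih]
        have h4 : ∀ k s : ℕ, u q (s + q * k) = u q s := by
          intro k
          induction k with
          | zero => intro s; rw [mul_zero, add_zero]
          | succ k ih => intro s; rw [show s + q * (k + 1) = (s + q * k) + q by ring, huper q hq, ih]
        rw [h3, mul_comm p q, h4]
      have h3 := periodic_sum (fun j => u p j * u q j) (p * q) (Nat.mul_pos hpp.pos hqq.pos) hper' h2 h1 N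
      refine h3.trans ?_
      rw [zero_add]
      have h4 : p * q ≤ x ^ 2 := by
        rw [sq]
        exact Nat.mul_le_mul hpx hqx
      exact_mod_cast h4
  have e1 : ∑ j ∈ range N, (∑ p ∈ S, (g p j - (∑ i ∈ range p, g p i) / p)) ^ 2 =
      ∑ p ∈ S, ∑ q ∈ S, ∑ j ∈ range N, u p j * u q j := by
    calc ∑ j ∈ range N, (∑ p ∈ S, (g p j - (∑ i ∈ range p, g p i) / p)) ^ 2 =
        ∑ j ∈ range N, ∑ p ∈ S, ∑ q ∈ S, u p j * u q j := by
          apply sum_congr rfl
          intro j _
          rw [sq, sum_mul_sum, hu, hm]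
      _ = _ := by
          rw [sum_comm]
          apply sum_congr rfl
          intro p _
          rw [sum_comm]
  rw [e1]
  calc ∑ p ∈ S, ∑ q ∈ S, ∑ j ∈ range N, u p j * u q j ≤
      ∑ p ∈ S, ∑ q ∈ S, ((if p = q then (N : ℝ) else 0) + (x : ℝ) ^ 2) := by
        apply sum_le_sum
        intro p hp
        apply sum_le_sum
        intro q hq
        exact (le_abs_self _).trans (hpair p hp q hq)
    _ = (N : ℝ) * S.card + (S.card : ℝ) ^ 2 * x ^ 2 := by
        have h1 : ∀ p ∈ S, ∑ q ∈ S, ((if p = q then (N : ℝ) else 0) + (x : ℝ) ^ 2) =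
            N + S.card * (x : ℝ) ^ 2 := by
          intro p hp
          rw [sum_add_distrib, sum_ite_eq, if_pos hp, sum_const, nsmul_eq_mul]
        rw [sum_congr rfl h1, sum_const, nsmul_eq_mul]
        ring

end Pool.Agent.KS6_33.SP
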