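import Pool.Agent.KS6_33.SP.YB
import Pool.Agent.KS6_33.EX.XD

/-! # The average of the means over the primes -/

set_option autoImplicit false

namespace Pool.Agent.KS6_33.SP

open Finset Filter Polynomial Pool.Agent.R459.Eq Pool.Agent.H730R2.AA Pool.Agent.R318.PR Pool.Agent.KS6_33.EX

lemma card_dvd (x g : ℕ) : (((Px x).filter (fun p => g ∣ p - 1)).card : ℝ) ≤ (x : ℝ) / g := by
  classical
  have h3 : ((Px x).filter (fun p => g ∣ p - 1)).card ≤ x / g := by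
    rw [← Nat.Ioc_filter_dvd_card_eq_div]
    apply card_le_card_of_injOn (fun p => p - 1)
    · intro p hp
      have hp' := mem_filter.1 (mem_coe.1 hp)
      rw [mem_Px] at hp'
      have := hp'.1.2.two_le
      refine mem_coe.2 (mem_filter.2 ⟨mem_Ioc.2 ?_, hp'.2⟩)
      dsimp only
      omega
    · intro p hp q hq hpq
      have hp' := mem_filter.1 (mem_coe.1 hp)
      have hq' := mem_filter.1 (mem_coe.1 hq)
      rw [mem_Px] at hp' hq'
      have := hp'.1.2.two_le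
      have := hq'.1.2.two_le
      dsimp only at hpq
      omega
  exact le_trans (by exact_mod_cast h3) Nat.cast_div_le

/-- the primes with a large common divisor of `r` and `p - 1` -/
lemma card_gcd (M x r : ℕ) (hr : r ≠ 0) (G : ℝ) (hG : 0 < G) :
    (((GP M x).filter (fun p => G < (Nat.gcd r (p - 1) : ℝ))).card : ℝ) ≤ (r.divisors.card : ℝ) * (x / G) := by
  classical
  have h1 : (GP M x).filter (fun p => G < (Nat.gcd r (p - 1) : ℝ)) ⊆
      (r.divisors.filter (fun g : ℕ => G < (g : ℝ))).biUnion (fun g => (Px x).filter (fun p => g ∣ p - 1)) := by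
    intro p hp
    rw [mem_filter, mem_GP] at hp
    rw [mem_biUnion]
    refine ⟨Nat.gcd r (p - 1), ?_, ?_⟩
    · rw [mem_filter, Nat.mem_divisors]
      exact ⟨⟨Nat.gcd_dvd_left _ _, hr⟩, hp.2⟩
    · rw [mem_filter, mem_Px]
      exact ⟨⟨hp.1.1, hp.1.2.1⟩, Nat.gcd_dvd_right _ _⟩
  have h2 : ∀ g ∈ r.divisors.filter (fun g : ℕ => G < (g : ℝ)),
      (((Px x).filter (fun p => g ∣ p - 1)).card : ℝ) ≤ x / G := by
    intro g hg
    rw [mem_filter] at hg
    have hg0 : (0 : ℝ) < g := hG.trans hg.2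
    refine (card_dvd x g).trans ?_
    exact div_le_div_of_nonneg_left (Nat.cast_nonneg x) hG hg.2.le
  have h3 := (card_le_card h1).trans card_biUnion_le
  have h4 : (((GP M x).filter (fun p => G < (Nat.gcd r (p - 1) : ℝ))).card : ℝ) ≤
      ∑ g ∈ r.divisors.filter (fun g : ℕ => G < (g : ℝ)), (((Px x).filter (fun p => g ∣ p - 1)).card : ℝ) := by
    exact_mod_cast h3
  refine h4.trans ((sum_le_sum h2).trans ?_)
  rw [sum_const, nsmul_eq_mul]
  apply mul_le_mul_of_nonneg_right _ (by positivity)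
  exact_mod_cast card_le_card (filter_subset _ _)

/-- the average over the primes of the difference of the means -/
lemma avg_pow (M x r : ℕ) (hr : r ≠ 0) (G : ℝ) (hG : 0 < G) (S : Finset ℕ) (hS : S ⊆ GP M x) (d : ℕ)
    (m μ : ℕ → ℝ)
    (h1 : ∀ p ∈ S, |m p - μ p| ≤ 5 * (d + 1) * ((Nat.gcd r (p - 1) : ℝ) * (((p - 1).divisors.card : ℝ) / Real.sqrt p)))
    (h2 : ∀ p ∈ S, |m p - μ p| ≤ 2) :
    ∑ p ∈ S, |m p - μ p| ≤ 5 * (d + 1) * (G * (2 * Real.sqrt x * (1 + Real.log x))) +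
      2 * ((r.divisors.card : ℝ) * (x / G)) := by
  classical
  have h3 : ∀ p ∈ S, |m p - μ p| ≤ 5 * (d + 1) * G * (((p - 1).divisors.card : ℝ) / Real.sqrt p) +
      (if G < (Nat.gcd r (p - 1) : ℝ) then 2 else 0) := by
    intro p hp
    have h0 : (0 : ℝ) ≤ ((p - 1).divisors.card : ℝ) / Real.sqrt p := by positivity
    split_ifs with h
    · have h4 : 0 ≤ 5 * ((d : ℝ) + 1) * G * (((p - 1).divisors.card : ℝ) / Real.sqrt p) := by positivity
      have := h2 p hp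
      linarith
    · push Not at h
      rw [add_zero]
      refine (h1 p hp).trans ?_
      rw [mul_assoc (5 * ((d : ℝ) + 1))]
      apply mul_le_mul_of_nonneg_left _ (by positivity)
      exact mul_le_mul_of_nonneg_right h h0
  refine (sum_le_sum h3).trans ?_
  rw [sum_add_distrib, ← mul_sum]
  apply add_le_add
  · rw [mul_assoc (5 * ((d : ℝ) + 1))]
    apply mul_le_mul_of_nonneg_left _ (by positivity)
    apply mul_le_mul_of_nonneg_left _ hG.le
    refine le_trans ?_ (sum_tau_primes M x)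
    apply sum_le_sum_of_subset_of_nonneg hS
    intro p _ _
    positivity
  · rw [← sum_filter, sum_const, nsmul_eq_mul, mul_comm]
    apply mul_le_mul_of_nonneg_left _ (by norm_num)
    refine le_trans ?_ (card_gcd M x r hr G hG)
    exact_mod_cast card_le_card (filter_subset_filter _ hS)

/-- a power of `x` with exponent `7 / 8` is small -/
lemma small_pow (K ε : ℝ) (hε : 0 < ε) : ∃ X : ℕ, 9 ≤ X ∧ ∀ x : ℕ, X ≤ x →
    K * ((x : ℝ) ^ (7 / 8 : ℝ) * (1 + Real.log x)) ≤ ε * (Nat.primeCounting x : ℝ) := by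
  have h1 := ev_log_pow 3 (1 / 8) (by norm_num)
  have h2 : Tendsto (fun x : ℕ => Real.log x) atTop atTop := log_atTop
  obtain ⟨X, hX⟩ := eventually_atTop.1 (h1.and ((h2.eventually_ge_atTop (8 * (|K| + 1) / ε)).and
    (eventually_ge_atTop 9)))
  refine ⟨max X 9, le_max_right _ _, fun x hx => ?_⟩
  obtain ⟨h3, h4, h5⟩ := hX x ((le_max_left _ _).trans hx)
  have hx9 : (9 : ℝ) ≤ x := by exact_mod_cast h5
  have hx0 : (0 : ℝ) < x := by linarith
  have h6 := ox_cheb x (by omega)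
  obtain ⟨L, hL⟩ : ∃ L, L = Real.log x := ⟨_, rfl⟩
  rw [← hL] at h3 h4 h6 ⊢
  have hL1 : 1 ≤ L := by
    rw [hL, Real.le_log_iff_exp_le hx0]
    linarith [Real.exp_one_lt_d9]
  have hL0 : 0 < L := by linarith
  have h3' : L ^ 3 ≤ (x : ℝ) ^ (1 / 8 : ℝ) := by
    have : L ^ (3 : ℝ) = L ^ 3 := by
      rw [show (3 : ℝ) = ((3 : ℕ) : ℝ) by norm_num, Real.rpow_natCast]
    rwa [this] at h3
  obtain ⟨y, hy⟩ : ∃ y, y = (x : ℝ) ^ (7 / 8 : ℝ) := ⟨_, rfl⟩
  have hy0 : 0 < y := by rw [hy]; positivity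
  have hxy : y * (x : ℝ) ^ (1 / 8 : ℝ) = x := by
    rw [hy, ← Real.rpow_add hx0]
    norm_num
  rw [← hy]
  have hK0 : 0 < |K| + 1 := by have := abs_nonneg K; linarith
  have h7 : K * (y * (1 + L)) ≤ 2 * (|K| + 1) * (y * L) := by
    have e1 : K ≤ |K| + 1 := (le_abs_self K).trans (by linarith)
    have e2 : y * (1 + L) ≤ y * (2 * L) := mul_le_mul_of_nonneg_left (by linarith) hy0.le
    calc K * (y * (1 + L)) ≤ (|K| + 1) * (y * (1 + L)) := mul_le_mul_of_nonneg_right e1 (by positivity)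
      _ ≤ (|K| + 1) * (y * (2 * L)) := mul_le_mul_of_nonneg_left e2 hK0.le
      _ = _ := by ring
  refine h7.trans ?_
  have h8 : 2 * (|K| + 1) * (y * L) * L ≤ ε * (Nat.primeCounting x : ℝ) * L := by
    rw [div_le_iff₀ hε] at h4
    have e1 : 8 * (|K| + 1) * (y * L ^ 2) ≤ (L * ε) * (y * L ^ 2) :=
      mul_le_mul_of_nonneg_right h4 (by positivity)
    have e2 : (L * ε) * (y * L ^ 2) ≤ ε * x := by
      calc (L * ε) * (y * L ^ 2) = ε * (y * L ^ 3) := by ring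
        _ ≤ ε * (y * (x : ℝ) ^ (1 / 8 : ℝ)) := by
            apply mul_le_mul_of_nonneg_left _ hε.le
            exact mul_le_mul_of_nonneg_left h3' hy0.le
        _ = _ := by rw [hxy]
    have e3 : ε * ((x : ℝ) / 4) ≤ ε * ((Nat.primeCounting x : ℝ) * L) := mul_le_mul_of_nonneg_left h6 hε.le
    calc 2 * (|K| + 1) * (y * L) * L = (8 * (|K| + 1) * (y * L ^ 2)) / 4 := by ring
      _ ≤ (ε * x) / 4 := by linarith
      _ = ε * ((x : ℝ) / 4) := by ring
      _ ≤ _ := by linarith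
  exact le_of_mul_le_mul_right h8 hL0

/-- the total error, simplified -/
lemma err_simp (d x r : ℕ) (ω₁ ω₂ : ℝ) (hx : 9 ≤ x) (hr : (r.divisors.card : ℝ) ≤ 2 * (x : ℝ) ^ (1 / 4 : ℝ))
    (h1 : ω₁ ≤ 2 * Real.sqrt x) (h2 : ω₂ ≤ 2 * Real.sqrt x) :
    5 * (d + 1) * ((x : ℝ) ^ (3 / 8 : ℝ) * (2 * Real.sqrt x * (1 + Real.log x))) +
      2 * ((r.divisors.card : ℝ) * (x / (x : ℝ) ^ (3 / 8 : ℝ))) + 2 * (ω₁ + ω₂) ≤
    (10 * (d + 1) + 12) * ((x : ℝ) ^ (7 / 8 : ℝ) * (1 + Real.log x)) := by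
  have hx9 : (9 : ℝ) ≤ x := by exact_mod_cast hx
  have hx0 : (0 : ℝ) < x := by linarith
  have hx1 : (1 : ℝ) ≤ x := by linarith
  have hL0 : 0 ≤ Real.log x := Real.log_natCast_nonneg x
  obtain ⟨y, hy⟩ : ∃ y, y = (x : ℝ) ^ (7 / 8 : ℝ) := ⟨_, rfl⟩
  have hy0 : 0 < y := by rw [hy]; positivity
  have e1 : (x : ℝ) ^ (3 / 8 : ℝ) * Real.sqrt x = y := by
    rw [Real.sqrt_eq_rpow, ← Real.rpow_add hx0, hy]
    norm_num
  have e2 : (x : ℝ) ^ (1 / 4 : ℝ) * (x / (x : ℝ) ^ (3 / 8 : ℝ)) = y := by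
    rw [← mul_div_assoc, div_eq_iff (by positivity), hy, ← Real.rpow_add hx0]
    nth_rewrite 2 [← Real.rpow_one (x : ℝ)]
    rw [← Real.rpow_add hx0]
    norm_num
  have e3 : Real.sqrt x ≤ y := by
    rw [Real.sqrt_eq_rpow, hy]
    exact Real.rpow_le_rpow_of_exponent_le hx1 (by norm_num)
  have e4 : 2 * ((r.divisors.card : ℝ) * (x / (x : ℝ) ^ (3 / 8 : ℝ))) ≤ 4 * y := by
    calc 2 * ((r.divisors.card : ℝ) * (x / (x : ℝ) ^ (3 / 8 : ℝ))) ≤
        2 * (2 * (x : ℝ) ^ (1 / 4 : ℝ) * (x / (x : ℝ) ^ (3 / 8 : ℝ))) := by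
          apply mul_le_mul_of_nonneg_left _ (by norm_num)
          exact mul_le_mul_of_nonneg_right hr (by positivity)
      _ = 4 * ((x : ℝ) ^ (1 / 4 : ℝ) * (x / (x : ℝ) ^ (3 / 8 : ℝ))) := by ring
      _ = 4 * y := by rw [e2]
  have e5 : 5 * ((d : ℝ) + 1) * ((x : ℝ) ^ (3 / 8 : ℝ) * (2 * Real.sqrt x * (1 + Real.log x))) =
      10 * (d + 1) * (y * (1 + Real.log x)) := by
    rw [← e1]
    ring
  rw [← hy, e5]
  have e6 : 0 ≤ y * Real.log x := by positivity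
  linarith

end Pool.Agent.KS6_33.SP
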