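import Pool.Agent.KS6_33.SP.YC

/-! # One `x` for the shifted powers -/

set_option autoImplicit false

namespace Pool.Agent.KS6_33.SP

open Finset Filter Polynomial Pool.Agent.R459.Eq Pool.Agent.H730R2.AA Pool.Agent.R318.PR Pool.Agent.KS6_33.EX

lemma fam_per (F : ℤ[X]) (c b q : ℤ) (r : ℕ) (p : ℕ) (f : ℤ → ℝ) (hper : Per p f) (j : ℕ) :
    fam F c b q r f (j + p) = fam F c b q r f j := by
  unfold fam
  apply hper
  refine dvd_trans ?_ (sub_dvd_eval_sub _ _ F)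
  rw [← mul_sub]
  apply Dvd.dvd.mul_left
  refine dvd_trans ?_ (sub_dvd_pow_sub_pow _ _ r)
  push_cast
  exact ⟨q, by ring⟩

lemma fam_mem (F : ℤ[X]) (c b q : ℤ) (r : ℕ) (f : ℤ → ℝ) (hf : ∀ n, 0 ≤ f n ∧ f n ≤ 1) (j : ℕ) :
    0 ≤ fam F c b q r f j ∧ fam F c b q r f j ≤ 1 := hf _

theorem one_sp (F : ℤ[X]) (d M : ℕ)
    (hW : ∀ p : ℕ, p.Prime → ¬ p ∣ M → WB F d p)
    (f : ℕ → ℤ → ℝ) (μ : ℕ → ℝ) (hE : ∀ p : ℕ, p.Prime → ¬ p ∣ M → Ev p (f p) (μ p)) (δ : ℝ)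
    (havg : ∀ ε : ℝ, 0 < ε → ∃ X : ℕ, ∀ x : ℕ, X ≤ x →
      |∑ p ∈ GP M x, μ p - δ * Nat.primeCounting x| ≤ ε * Nat.primeCounting x)
    (ε κ : ℝ) (hε : 0 < ε) (hκ1 : κ < 1) :
    ∃ (C : ℝ) (X₀ : ℕ), 0 < C ∧ 9 ≤ X₀ ∧ ∀ (x N r : ℕ) (b c q : ℤ), X₀ ≤ x →
      (x : ℝ) ^ (2 + κ) ≤ 64 * N → r ≠ 0 → c ≠ 0 → q ≠ 0 →
      (r.divisors.card : ℝ) ≤ 2 * (x : ℝ) ^ (1 / 4 : ℝ) →
      (c.natAbs.primeFactors.card : ℝ) ≤ 2 * Real.sqrt x →
      (q.natAbs.primeFactors.card : ℝ) ≤ 2 * Real.sqrt x → ∀ E : Finset ℕ, E ⊆ range N →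
      (∀ j ∈ E, ε * (Nat.primeCounting x : ℝ) <
        |∑ p ∈ GP M x, fam F c b q r (f p) j - δ * Nat.primeCounting x|) →
      (E.card : ℝ) ≤ C * (N / (x : ℝ) ^ κ) := by
  classical
  obtain ⟨X2, hX2⟩ := havg (ε / 4) (by positivity)
  obtain ⟨X3, hX39, hX3⟩ := small_pow (10 * (d + 1) + 12) (ε / 4) (by positivity)
  have h1 := ev_log_pow 1 (1 - κ) (by linarith)
  obtain ⟨X4, hX4⟩ := eventually_atTop.1 h1
  refine ⟨272 / ε ^ 2, X2 + X3 + X4, by positivity, by omega, ?_⟩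
  intro x N r b c q hx hxN hr hc hq hτ hcx hqx E hEN hbad
  have hx9 : 9 ≤ x := by omega
  have hxR : (9 : ℝ) ≤ x := by exact_mod_cast hx9
  have hx0 : (0 : ℝ) < x := by linarith
  have g2 := hX2 x (by omega)
  have g3 := hX3 x (by omega)
  have g4 := hX4 x (by omega)
  rw [Real.rpow_one] at g4
  obtain ⟨hpi, _, hpi2⟩ := pi_lower' x (by omega)
  obtain ⟨S, hS⟩ : ∃ S : Finset ℕ, S = (GP M x).filter (fun p : ℕ => ¬ (p : ℤ) ∣ c ∧ ¬ (p : ℤ) ∣ q) := ⟨_, rfl⟩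
  have hSG : S ⊆ GP M x := by rw [hS]; exact filter_subset _ _
  have hSmem : ∀ p ∈ S, p ≤ x ∧ p.Prime ∧ ¬ p ∣ M ∧ ¬ (p : ℤ) ∣ c ∧ ¬ (p : ℤ) ∣ q := by
    intro p hp
    rw [hS, mem_filter, mem_GP] at hp
    exact ⟨hp.1.1, hp.1.2.1, hp.1.2.2, hp.2.1, hp.2.2⟩
  -- the other primes are few
  have hother : ((GP M x \ S).card : ℝ) ≤ (c.natAbs.primeFactors.card : ℝ) + (q.natAbs.primeFactors.card : ℝ) := by
    have h1 : GP M x \ S ⊆ c.natAbs.primeFactors ∪ q.natAbs.primeFactors := by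
      intro p hp
      rw [Finset.mem_sdiff, hS, mem_filter, mem_GP] at hp
      obtain ⟨⟨hpx, hpp, hpM⟩, hnot⟩ := hp
      rw [mem_union]
      by_cases h2 : (p : ℤ) ∣ c
      · left
        exact Nat.mem_primeFactors.2 ⟨hpp, Int.natCast_dvd.1 h2, Int.natAbs_ne_zero.2 hc⟩
      by_cases h3 : (p : ℤ) ∣ q
      · right
        exact Nat.mem_primeFactors.2 ⟨hpp, Int.natCast_dvd.1 h3, Int.natAbs_ne_zero.2 hq⟩
      exact absurd ⟨⟨hpx, hpp, hpM⟩, h2, h3⟩ hnot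
    exact_mod_cast (card_le_card h1).trans (card_union_le _ _)
  -- the means
  obtain ⟨m, hm⟩ : ∃ m : ℕ → ℝ, m = fun p => (∑ i ∈ range p, fam F c b q r (f p) i) / p := ⟨_, rfl⟩
  have hm01 : ∀ p ∈ S, 0 ≤ m p ∧ m p ≤ 1 := by
    intro p hp
    obtain ⟨_, hpp, hpM, _, _⟩ := hSmem p hp
    have hp0 : (0 : ℝ) < p := by exact_mod_cast hpp.pos
    have hmem := (hE p hpp hpM).mem
    rw [hm]
    constructor
    · exact div_nonneg (sum_nonneg fun i _ => (fam_mem F c b q r (f p) hmem i).1) hp0.le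
    · rw [div_le_one hp0]
      refine (sum_le_card_nsmul _ _ 1 fun i _ => (fam_mem F c b q r (f p) hmem i).2).trans ?_
      rw [card_range, nsmul_eq_mul, mul_one]
  have havgm := avg_pow M x r hr ((x : ℝ) ^ (3 / 8 : ℝ)) (by positivity) S hSG d m μ (by
      intro p hp
      obtain ⟨_, hpp, hpM, hpc, hpq⟩ := hSmem p hp
      haveI : Fact p.Prime := ⟨hpp⟩
      have hWp := hW p hpp hpM
      rw [hm]
      exact mean_pow p F d r hr hWp.1 hWp.2 (f p) (μ p) (hE p hpp hpM) c b q hpc hpq) (by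
      intro p hp
      obtain ⟨_, hpp, hpM, _, _⟩ := hSmem p hp
      have h1 := hm01 p hp
      have h2 := (hE p hpp hpM).mu0
      have h3 := (hE p hpp hpM).mu2
      rw [abs_le]
      constructor <;> linarith [h1.1, h1.2])
  have herr := err_simp d x r _ _ hx9 hτ hcx hqx
  -- the large deviations
  have hlarge : ∀ j ∈ E, (ε / 2 * (Nat.primeCounting x : ℝ)) ^ 2 ≤
      (∑ p ∈ S, (fam F c b q r (f p) j - m p)) ^ 2 := by
    intro j hj
    rw [← sq_abs (∑ p ∈ S, (fam F c b q r (f p) j - m p))]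
    apply pow_le_pow_left₀ (by positivity)
    have h1 := hbad j hj
    have h2 : ∑ p ∈ GP M x, fam F c b q r (f p) j - δ * Nat.primeCounting x =
        ∑ p ∈ S, (fam F c b q r (f p) j - m p) + ∑ p ∈ S, (m p - μ p) +
        ∑ p ∈ GP M x \ S, (fam F c b q r (f p) j - μ p) +
        (∑ p ∈ GP M x, μ p - δ * Nat.primeCounting x) := by
      have h3 := sum_sdiff hSG (f := fun p => fam F c b q r (f p) j - μ p)
      rw [sum_sub_distrib (s := GP M x)] at h3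
      have h4 : ∑ p ∈ S, (fam F c b q r (f p) j - μ p) =
          ∑ p ∈ S, (fam F c b q r (f p) j - m p) + ∑ p ∈ S, (m p - μ p) := by
        rw [← sum_add_distrib]
        apply sum_congr rfl
        intro p _
        ring
      linarith
    have h4 : |∑ p ∈ GP M x \ S, (fam F c b q r (f p) j - μ p)| ≤ 2 * ((GP M x \ S).card : ℝ) := by
      refine (abs_sum_le_sum_abs _ _).trans ?_
      calc ∑ p ∈ GP M x \ S, |fam F c b q r (f p) j - μ p| ≤ ∑ p ∈ GP M x \ S, (2 : ℝ) := by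
            apply sum_le_sum
            intro p hp
            rw [Finset.mem_sdiff, mem_GP] at hp
            have h5 := hE p hp.1.2.1 hp.1.2.2
            have h6 := fam_mem F c b q r (f p) h5.mem j
            have h7 := h5.mu0
            have h8 := h5.mu2
            rw [abs_le]
            constructor <;> linarith [h6.1, h6.2]
        _ = _ := by rw [sum_const, nsmul_eq_mul, mul_comm]
    have h5 : |∑ p ∈ S, (m p - μ p)| ≤ ∑ p ∈ S, |m p - μ p| := abs_sum_le_sum_abs _ _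
    rw [h2] at h1
    have h6 := (abs_add_le (∑ p ∈ S, (fam F c b q r (f p) j - m p) + ∑ p ∈ S, (m p - μ p) +
        ∑ p ∈ GP M x \ S, (fam F c b q r (f p) j - μ p))
        (∑ p ∈ GP M x, μ p - δ * Nat.primeCounting x)).trans
        (add_le_add_left ((abs_add_le (∑ p ∈ S, (fam F c b q r (f p) j - m p) + ∑ p ∈ S, (m p - μ p))
        (∑ p ∈ GP M x \ S, (fam F c b q r (f p) j - μ p))).trans
        (add_le_add_left (abs_add_le (∑ p ∈ S, (fam F c b q r (f p) j - m p)) (∑ p ∈ S, (m p - μ p))) _)) _)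
    linarith
  -- the second moment
  have hvar := variance_int S x (fun p hp => ⟨(hSmem p hp).2.1, (hSmem p hp).1⟩)
    (fun p => fam F c b q r (f p)) (fun p hp j => fam_mem F c b q r (f p)
      (hE p (hSmem p hp).2.1 (hSmem p hp).2.2.1).mem j)
    (fun p hp j => fam_per F c b q r p (f p) (hE p (hSmem p hp).2.1 (hSmem p hp).2.2.1).per j) N
  have hSpi : (S.card : ℝ) ≤ (Nat.primeCounting x : ℝ) := by
    refine le_trans ?_ (GP_card_le M x)
    exact_mod_cast card_le_card hSG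
  have hcheb : (E.card : ℝ) * (ε / 2 * (Nat.primeCounting x : ℝ)) ^ 2 ≤
      (N : ℝ) * (Nat.primeCounting x : ℝ) + (Nat.primeCounting x : ℝ) ^ 2 * (x : ℝ) ^ 2 := by
    have h1 : (E.card : ℝ) * (ε / 2 * (Nat.primeCounting x : ℝ)) ^ 2 ≤
        (N : ℝ) * S.card + (S.card : ℝ) ^ 2 * (x : ℝ) ^ 2 := by
      refine le_trans ?_ hvar
      calc (E.card : ℝ) * (ε / 2 * (Nat.primeCounting x : ℝ)) ^ 2 =
          ∑ j ∈ E, (ε / 2 * (Nat.primeCounting x : ℝ)) ^ 2 := by rw [sum_const, nsmul_eq_mul]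
        _ ≤ ∑ j ∈ E, (∑ p ∈ S, (fam F c b q r (f p) j - m p)) ^ 2 := sum_le_sum hlarge
        _ ≤ ∑ j ∈ range N, (∑ p ∈ S, (fam F c b q r (f p) j - m p)) ^ 2 :=
            sum_le_sum_of_subset_of_nonneg hEN fun j _ _ => sq_nonneg _
        _ = _ := by rw [hm]
    refine h1.trans ?_
    have h2 := mul_le_mul_of_nonneg_left hSpi (Nat.cast_nonneg N : (0 : ℝ) ≤ N)
    have h3 := mul_le_mul_of_nonneg_right (pow_le_pow_left₀ (Nat.cast_nonneg _) hSpi 2) (sq_nonneg (x : ℝ))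
    linarith
  have h1 : (E.card : ℝ) ≤ 4 / ε ^ 2 * (N * (1 / (Nat.primeCounting x : ℝ)) + (x : ℝ) ^ 2) := by
    have h2 : 4 / ε ^ 2 * (N * (1 / (Nat.primeCounting x : ℝ)) + (x : ℝ) ^ 2) =
      ((N : ℝ) * (Nat.primeCounting x : ℝ) + (Nat.primeCounting x : ℝ) ^ 2 * (x : ℝ) ^ 2) /
        (ε / 2 * (Nat.primeCounting x : ℝ)) ^ 2 := by
      field_simp
      ring
    rw [h2, le_div_iff₀ (by positivity)]
    exact hcheb
  refine h1.trans ?_
  have hxκ : 0 < (x : ℝ) ^ κ := Real.rpow_pos_of_pos hx0 κ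
  have h3 : (N : ℝ) * (1 / (Nat.primeCounting x : ℝ)) ≤ 4 * (N / (x : ℝ) ^ κ) := by
    have h4 : 4 * Real.log x / x ≤ 4 * (1 / (x : ℝ) ^ κ) := by
      rw [mul_div_assoc]
      apply mul_le_mul_of_nonneg_left _ (by norm_num)
      rw [div_le_div_iff₀ hx0 hxκ, one_mul]
      calc Real.log x * (x : ℝ) ^ κ ≤ (x : ℝ) ^ (1 - κ) * (x : ℝ) ^ κ := mul_le_mul_of_nonneg_right g4 hxκ.le
        _ = x := by rw [← Real.rpow_add hx0, sub_add_cancel, Real.rpow_one]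
    calc (N : ℝ) * (1 / (Nat.primeCounting x : ℝ)) ≤ N * (4 * (1 / (x : ℝ) ^ κ)) :=
          mul_le_mul_of_nonneg_left (hpi2.trans h4) (Nat.cast_nonneg N)
      _ = _ := by ring
  have h4 : (x : ℝ) ^ 2 ≤ 64 * (N / (x : ℝ) ^ κ) := by
    rw [← mul_div_assoc, le_div_iff₀ hxκ]
    refine le_trans (le_of_eq ?_) hxN
    rw [Real.rpow_add hx0, Real.rpow_two]
  calc 4 / ε ^ 2 * (N * (1 / (Nat.primeCounting x : ℝ)) + (x : ℝ) ^ 2) ≤
      4 / ε ^ 2 * (4 * (N / (x : ℝ) ^ κ) + 64 * (N / (x : ℝ) ^ κ)) := by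
        apply mul_le_mul_of_nonneg_left _ (by positivity)
        linarith
    _ = _ := by ring

end Pool.Agent.KS6_33.SP
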