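import Pool.Agent.KS6_33.SP.YD
import Pool.Agent.KS6_33.SP.GA

/-! # All `x` for the shifted powers -/

set_option autoImplicit false

namespace Pool.Agent.KS6_33.SP

open Finset Filter Polynomial Pool.Agent.R459.Eq Pool.Agent.H730R2.AA Pool.Agent.R318.PR Pool.Agent.KS6_33.EX
open Pool.Agent.H730R2.AA.Grid

/-- the families `F(c (b + q j) ^ r)` -/
def AdmP (F : ℤ[X]) (X : ℕ) (_ : ℕ) (u : ℕ → ℤ) : Prop :=
  ∃ (r : ℕ) (b c q : ℤ), r ≠ 0 ∧ c ≠ 0 ∧ q ≠ 0 ∧ (r.divisors.card : ℝ) ≤ (X : ℝ) ^ (1 / 4 : ℝ) ∧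
    (c.natAbs.primeFactors.card : ℝ) ≤ Real.sqrt X ∧ (q.natAbs.primeFactors.card : ℝ) ≤ Real.sqrt X ∧
    u = fun j : ℕ => F.eval (c * (b + q * (j : ℤ)) ^ r)

/-- the range of `x` -/
def RP (κ : ℝ) (x N : ℕ) : Prop := (x : ℝ) ^ (2 + κ) ≤ N

/-- a geometric sum -/
lemma geom_tail (t : ℝ) (ht0 : 0 < t) (ht1 : t < 1) (J0 L : ℕ) (I : Finset ℕ) (hI : I ⊆ range L)
    (hJ : ∀ j ∈ I, J0 ≤ j) : ∑ j ∈ I, t ^ j ≤ t ^ J0 / (1 - t) := by
  classical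
  have h1 : I ⊆ (range L).image (fun i => J0 + i) := by
    intro j hj
    rw [mem_image]
    have h2 := hJ j hj
    have h3 := mem_range.1 (hI hj)
    exact ⟨j - J0, mem_range.2 (by omega), by omega⟩
  calc ∑ j ∈ I, t ^ j ≤ ∑ j ∈ (range L).image (fun i => J0 + i), t ^ j :=
        sum_le_sum_of_subset_of_nonneg h1 fun j _ _ => by positivity
    _ = ∑ i ∈ range L, t ^ (J0 + i) := sum_image (by intro a _ b _ h; exact Nat.add_left_cancel h)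
    _ = t ^ J0 * ∑ i ∈ range L, t ^ i := by rw [mul_sum]; simp only [pow_add]
    _ ≤ t ^ J0 * (1 / (1 - t)) := by
        apply mul_le_mul_of_nonneg_left _ (by positivity)
        rw [one_div, ← tsum_geometric_of_lt_one ht0.le ht1]
        exact (summable_geometric_of_lt_one ht0.le ht1).sum_le_tsum _ (fun i _ => by positivity)
    _ = _ := by ring

theorem all_sp (F : ℤ[X]) (d M₀ : ℕ) (hW : ∀ p : ℕ, p.Prime → ¬ p ∣ M₀ → WB F d p)
    (κ : ℝ) (hκ : 0 < κ) (hκ1 : κ < 1) :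
    AllH M₀ (AdmP F) (RP κ) (fun X => 1 / (X : ℝ) ^ κ) := by
  classical
  intro M _ hM₀M f μ hE δ havg N hN K₀ hNK ε hε
  have hd := abs_nonneg δ
  obtain ⟨ε₁, hε₁def⟩ : ∃ ε₁ : ℝ, ε₁ = min 1 (ε / (|δ| + 3)) := ⟨_, rfl⟩
  have hε₁ : 0 < ε₁ := by rw [hε₁def]; exact lt_min one_pos (by positivity)
  have hε₁1 : ε₁ ≤ 1 := by rw [hε₁def]; exact min_le_left _ _
  have hεε : (|δ| + 3) * ε₁ ≤ ε := by
    have : ε₁ ≤ ε / (|δ| + 3) := by rw [hε₁def]; exact min_le_right _ _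
    rw [le_div_iff₀ (by positivity)] at this
    linarith
  obtain ⟨C, X1, hC, hX1, h1⟩ := one_sp F d M (fun p hp hpM => hW p hp (fun h => hpM (h.trans hM₀M))) f μ hE δ
    havg (ε₁ / 2) κ (by positivity) hκ1
  obtain ⟨ρ, hρ, hρ2, X2, hX2, hpi⟩ := pi_ratio ε₁ hε₁
  obtain ⟨X3, hX34, hX3⟩ := small_ev K₀ (ε₁ / 2) (by positivity)
  have hρ0 : 0 < ρ := by linarith
  have hρρ : 0 < ρ ^ 2 - ρ := by nlinarith
  obtain ⟨X, hX⟩ : ∃ X, X = max (max X1 X2) X3 := ⟨_, rfl⟩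
  have hXX1 : X1 ≤ X := by rw [hX]; exact (le_max_left _ _).trans (le_max_left _ _)
  have hXX2 : X2 ≤ X := by rw [hX]; exact (le_max_right _ _).trans (le_max_left _ _)
  have hXX3 : X3 ≤ X := by rw [hX]; exact le_max_right _ _
  obtain ⟨Q, hQ⟩ := exists_nat_ge (1 / (ρ ^ 2 - ρ))
  obtain ⟨t, ht⟩ : ∃ t : ℝ, t = (ρ ^ κ)⁻¹ := ⟨_, rfl⟩
  have hρκ : 1 < ρ ^ κ := Real.one_lt_rpow hρ hκ
  have ht0 : 0 < t := by rw [ht]; positivity
  have ht1 : t < 1 := by rw [ht]; exact inv_lt_one_of_one_lt₀ hρκ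
  have ht2 : 0 < 1 - t := by linarith
  refine ⟨C * (2 / (1 - t)), 2 * (X + Q) + 16, by positivity, by omega, ?_⟩
  rintro Y K u hY ⟨r, b, c, q, hr, hc, hq, hτ, hcY, hqY, rfl⟩ E hEK hbad
  have hY4 : 16 ≤ Y := by omega
  have hY1 : (1 : ℝ) ≤ Y := by exact_mod_cast (by omega : 1 ≤ Y)
  have hY0 : (0 : ℝ) < Y := by linarith
  obtain ⟨J0, hJ1, hJ2⟩ := exists_nat_pow_near hY1 hρ
  have hhalf : (Y : ℝ) / 2 ≤ ρ ^ J0 := by
    rw [pow_succ] at hJ2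
    have h2 : ρ ^ J0 * ρ ≤ ρ ^ J0 * 2 := mul_le_mul_of_nonneg_left hρ2 (by positivity)
    linarith
  have hYr : 2 * ((X : ℝ) + Q) + 16 ≤ Y := by
    have : 2 * (X + Q) + 16 ≤ Y := by omega
    exact_mod_cast this
  have hXQ : (X : ℝ) + Q ≤ g ρ J0 := by
    have := g_ge (ρ := ρ) J0
    linarith
  have hgJ0X : X ≤ g ρ J0 := by
    have h2 : (X : ℝ) ≤ g ρ J0 := by
      have : (0 : ℝ) ≤ Q := Nat.cast_nonneg _
      linarith
    exact_mod_cast h2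
  have hgJ01 : 1 ≤ (ρ ^ 2 - ρ) * g ρ J0 := by
    have h2 : 1 / (ρ ^ 2 - ρ) ≤ g ρ J0 := by
      have : (0 : ℝ) ≤ X := Nat.cast_nonneg _
      linarith
    rw [div_le_iff₀ hρρ] at h2
    linarith
  have hgY : g ρ J0 ≤ Y := Nat.ceil_le.2 hJ1
  obtain ⟨L, hL⟩ := pow_unbounded_of_one_lt (64 * (K : ℝ)) hρ
  obtain ⟨I, hI⟩ : ∃ I : Finset ℕ, I = (range L).filter (fun j => J0 ≤ j ∧ ((g ρ j : ℕ) : ℝ) ^ (2 + κ) ≤ 64 * K) :=
    ⟨_, rfl⟩
  obtain ⟨EE, hEE⟩ : ∃ EE : ℕ → Finset ℕ, EE = fun j => E.filter (fun k : ℕ =>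
    ε₁ * (Nat.primeCounting (g ρ j) : ℝ) < |(N (F.eval (c * (b + q * (k : ℤ)) ^ r)) (g ρ j) : ℝ) -
      δ * Nat.primeCounting (g ρ j)|) :=
    ⟨_, rfl⟩
  have hcover : E ⊆ I.biUnion EE := by
    intro k hk
    obtain ⟨x, hx1, hx2, hx3⟩ := hbad k hk
    rw [not_le] at hx3
    obtain ⟨j, hj1, hj2, hj3⟩ := coreG (N (F.eval (c * (b + q * (k : ℤ)) ^ r))) (hN _) δ hε₁ hε₁1 hεε hρ hρ2
      (fun x y hx => hpi x y (hXX2.trans hx)) hgJ0X hgJ01 x (hgY.trans hx1) hx3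
    rw [mem_biUnion]
    have hxR : (0 : ℝ) < x := by exact_mod_cast (by omega : 0 < x)
    have hgK : ((g ρ j : ℕ) : ℝ) ^ (2 + κ) ≤ 64 * K := by
      have h2 : ((g ρ j : ℕ) : ℝ) ≤ 4 * x := by exact_mod_cast hj2
      have h3 : (4 : ℝ) ^ (2 + κ) ≤ 64 := by
        calc (4 : ℝ) ^ (2 + κ) ≤ (4 : ℝ) ^ (3 : ℝ) :=
              Real.rpow_le_rpow_of_exponent_le (by norm_num) (by linarith)
          _ = 64 := by norm_num
      calc ((g ρ j : ℕ) : ℝ) ^ (2 + κ) ≤ (4 * x) ^ (2 + κ) :=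
            Real.rpow_le_rpow (Nat.cast_nonneg _) h2 (by positivity)
        _ = (4 : ℝ) ^ (2 + κ) * (x : ℝ) ^ (2 + κ) := Real.mul_rpow (by norm_num) hxR.le
        _ ≤ 64 * K := mul_le_mul h3 hx2 (by positivity) (by norm_num)
    refine ⟨j, ?_, ?_⟩
    · rw [hI, mem_filter, mem_range]
      refine ⟨?_, hj1, hgK⟩
      by_contra hcon
      push Not at hcon
      have h2 : ρ ^ L ≤ ρ ^ j := pow_le_pow_right₀ hρ.le hcon
      have h3 := g_ge (ρ := ρ) j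
      have h4 : ((g ρ j : ℕ) : ℝ) ≤ ((g ρ j : ℕ) : ℝ) ^ (2 + κ) := by
        calc ((g ρ j : ℕ) : ℝ) = ((g ρ j : ℕ) : ℝ) ^ (1 : ℝ) := (Real.rpow_one _).symm
          _ ≤ _ := Real.rpow_le_rpow_of_exponent_le (g_one_le hρ j) (by linarith)
      linarith
    · rw [hEE, mem_filter]
      exact ⟨hk, hj3⟩
  have h2 : (E.card : ℝ) ≤ ∑ j ∈ I, ((EE j).card : ℝ) := by
    have := (card_le_card hcover).trans card_biUnion_le
    exact_mod_cast this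
  have h3 : ∀ j ∈ I, ((EE j).card : ℝ) ≤ C * K * t ^ j := by
    intro j hj
    rw [hI, mem_filter] at hj
    have hgX : X ≤ g ρ j := hgJ0X.trans (g_mono hρ hj.2.1)
    have h5 : (Y : ℝ) ≤ 4 * (g ρ j : ℝ) := by
      have h6 := g_ge (ρ := ρ) j
      have h7 : ρ ^ J0 ≤ ρ ^ j := pow_le_pow_right₀ hρ.le hj.2.1
      linarith
    have hsq : Real.sqrt Y ≤ 2 * Real.sqrt (g ρ j : ℝ) := by
      calc Real.sqrt Y ≤ Real.sqrt (4 * (g ρ j : ℝ)) := Real.sqrt_le_sqrt h5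
        _ = 2 * Real.sqrt (g ρ j : ℝ) := by
            rw [Real.sqrt_mul (by norm_num), show (4 : ℝ) = 2 ^ 2 by norm_num, Real.sqrt_sq (by norm_num)]
    have hqr : (Y : ℝ) ^ (1 / 4 : ℝ) ≤ 2 * (g ρ j : ℝ) ^ (1 / 4 : ℝ) := by
      have h6 : (4 : ℝ) ^ (1 / 4 : ℝ) ≤ 2 := by
        calc (4 : ℝ) ^ (1 / 4 : ℝ) ≤ (4 : ℝ) ^ (1 / 2 : ℝ) :=
              Real.rpow_le_rpow_of_exponent_le (by norm_num) (by norm_num)
          _ = 2 := by
              rw [← Real.sqrt_eq_rpow, show (4 : ℝ) = 2 ^ 2 by norm_num, Real.sqrt_sq (by norm_num)]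
      calc (Y : ℝ) ^ (1 / 4 : ℝ) ≤ (4 * (g ρ j : ℝ)) ^ (1 / 4 : ℝ) :=
            Real.rpow_le_rpow hY0.le h5 (by norm_num)
        _ = (4 : ℝ) ^ (1 / 4 : ℝ) * (g ρ j : ℝ) ^ (1 / 4 : ℝ) := Real.mul_rpow (by norm_num) (Nat.cast_nonneg _)
        _ ≤ _ := mul_le_mul_of_nonneg_right h6 (by positivity)
    have h4 : ((EE j).card : ℝ) ≤ C * (K / ((g ρ j : ℕ) : ℝ) ^ κ) := by
      apply h1 (g ρ j) K r b c q (hXX1.trans hgX) hj.2.2 hr hc hq (hτ.trans hqr) (hcY.trans hsq) (hqY.trans hsq)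
      · rw [hEE]
        exact (filter_subset _ _).trans hEK
      · intro k hk
        rw [hEE, mem_filter] at hk
        have h4 := hk.2
        have h5 := hNK (F.eval (c * (b + q * (k : ℤ)) ^ r)) (g ρ j)
        have h6 := hX3 (g ρ j) (hXX3.trans hgX)
        have h7 : 0 ≤ Real.log (g ρ j) := Real.log_nonneg (g_one_le hρ j)
        have h8 := abs_sub_le (N (F.eval (c * (b + q * (k : ℤ)) ^ r)) (g ρ j) : ℝ)
          (∑ p ∈ GP M (g ρ j), f p (F.eval (c * (b + q * (k : ℤ)) ^ r)))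
          (δ * Nat.primeCounting (g ρ j))
        unfold fam
        linarith
    refine h4.trans ?_
    have h6 : 1 / ((g ρ j : ℕ) : ℝ) ^ κ ≤ t ^ j := by
      rw [ht, inv_pow, one_div]
      apply inv_anti₀ (by positivity)
      calc (ρ ^ κ) ^ j = (ρ ^ j) ^ κ := by
            rw [← Real.rpow_natCast, ← Real.rpow_natCast, ← Real.rpow_mul hρ0.le, ← Real.rpow_mul hρ0.le,
              mul_comm]
        _ ≤ _ := Real.rpow_le_rpow (by positivity) (g_ge j) hκ.le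
    calc C * (K / ((g ρ j : ℕ) : ℝ) ^ κ) = C * K * (1 / ((g ρ j : ℕ) : ℝ) ^ κ) := by ring
      _ ≤ C * K * t ^ j := mul_le_mul_of_nonneg_left h6 (by positivity)
  refine h2.trans ((sum_le_sum h3).trans ?_)
  rw [← mul_sum]
  have h4 := geom_tail t ht0 ht1 J0 L I (by rw [hI]; exact filter_subset _ _) (fun j hj => by
    rw [hI, mem_filter] at hj
    exact hj.2.1)
  have h5 : t ^ J0 ≤ 2 * (1 / (Y : ℝ) ^ κ) := by
    have h6 : (Y : ℝ) ^ κ ≤ 2 * (ρ ^ κ) ^ J0 := by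
      calc (Y : ℝ) ^ κ ≤ (2 * ρ ^ J0) ^ κ := Real.rpow_le_rpow hY0.le (by linarith) hκ.le
        _ = (2 : ℝ) ^ κ * (ρ ^ J0) ^ κ := Real.mul_rpow (by norm_num) (by positivity)
        _ ≤ 2 * (ρ ^ κ) ^ J0 := by
            have h7 : (2 : ℝ) ^ κ ≤ 2 := by
              calc (2 : ℝ) ^ κ ≤ (2 : ℝ) ^ (1 : ℝ) :=
                    Real.rpow_le_rpow_of_exponent_le (by norm_num) hκ1.le
                _ = 2 := Real.rpow_one _
            have h8 : (ρ ^ J0) ^ κ = (ρ ^ κ) ^ J0 := by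
              rw [← Real.rpow_natCast, ← Real.rpow_natCast, ← Real.rpow_mul hρ0.le, ← Real.rpow_mul hρ0.le,
                mul_comm]
            rw [h8]
            exact mul_le_mul_of_nonneg_right h7 (by positivity)
    rw [ht, inv_pow, mul_one_div, inv_eq_one_div, div_le_div_iff₀ (by positivity) (by positivity), one_mul]
    exact h6
  calc C * K * ∑ j ∈ I, t ^ j ≤ C * K * (t ^ J0 / (1 - t)) := mul_le_mul_of_nonneg_left h4 (by positivity)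
    _ ≤ C * K * (2 * (1 / (Y : ℝ) ^ κ) / (1 - t)) := by
        apply mul_le_mul_of_nonneg_left _ (by positivity)
        exact div_le_div_of_nonneg_right h5 ht2.le
    _ = _ := by ring

end Pool.Agent.KS6_33.SP
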